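import Pool.Agent.N177.FK.Dim
import Pool.Agent.TH206.Fro.Final

/-!
The excess of the Hilbert function in degree `2 d` for a sequence of forms.
-/

set_option autoImplicit false

namespace Pool.Agent.N177.FK

open MvPolynomial Module
open Pool.Agent.TH206.Fro (Mon card_Mon co co_thm coeff_mk_one_pow card_Mon_mono)

lemma co_succ (n : ℕ) (deg : ℕ → ℕ) (k m : ℕ) :
    co n (fun i : Fin (k + 1) => deg i) m = co n (fun i : Fin k => deg i) m -
      (if deg k ≤ m then co n (fun i : Fin k => deg i) (m - deg k) else 0) := by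
  unfold co
  rw [Fin.prod_univ_castSucc, ← mul_assoc, mul_sub, mul_one, map_sub]
  congr 1
  rw [PowerSeries.coeff_mul_X_pow']
  rfl

lemma co_low {n : ℕ} (hn : 1 ≤ n) {d : ℕ} (hd : 1 ≤ d) (deg : ℕ → ℕ) (hdeg : ∀ i, d ≤ deg i)
    (k j : ℕ) (hj : j ≤ d) :
    co n (fun i : Fin k => deg i) j = ((Mon n j).card : ℤ) -
      (if j = d then (((Finset.range k).filter fun i => deg i = d).card : ℤ) else 0) := by
  rw [co_thm n k d (fun i : Fin k => deg i) hn (fun i => by have := hdeg i; omega) j hj]
  congr 1
  have h0 : (Mon n 0).card = 1 := by rw [card_Mon, Nat.choose_zero_right]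
  by_cases h : j = d
  · subst h
    rw [if_pos rfl, Finset.card_filter, Nat.cast_sum, Finset.sum_range]
    refine Finset.sum_congr rfl fun i _ => ?_
    by_cases h1 : deg i = j
    · rw [if_pos h1.le, if_pos h1, h1, Nat.sub_self, h0]
    · have := hdeg i
      rw [if_neg (by omega), if_neg h1]
      rfl
  · rw [if_neg h]
    refine Finset.sum_eq_zero fun i _ => ?_
    have := hdeg i
    rw [if_neg (by omega)]

namespace GS

variable {n : ℕ} {Ω : Type} [Field Ω] (G : GS n Ω ℕ)

/-- the dimension of the multiples of degree `2 d` of the first `k` forms -/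
noncomputable def w (d k : ℕ) : ℕ := finrank Ω (G.W (Finset.range k) (2 * d))

/-- the expected value -/
noncomputable def E (d k : ℕ) : ℤ := co n (fun i : Fin k => G.deg i) (2 * d)

/-- the excess -/
noncomputable def e (d k : ℕ) : ℤ := (Mon n (2 * d)).card - G.w d k - G.E d k

/-- the excess of `S` -/
noncomputable def s (d k : ℕ) : ℤ :=
  finrank Ω (G.S (Finset.range k) d) - G.num (Finset.range k) d

lemma w_mono {d k l : ℕ} (h : k ≤ l) : G.w d k ≤ G.w d l :=
  Submodule.finrank_mono (G.W_mono (Finset.range_subset_range.2 h) _)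

lemma num_succ (d k : ℕ) : G.num (Finset.range (k + 1)) d =
    G.num (Finset.range k) d + (if G.deg k = d then 1 else 0) := by
  unfold num
  rw [Finset.range_add_one, Finset.filter_insert]
  split_ifs with h
  · rw [Finset.card_insert_of_notMem]
    simp
  · rfl

lemma e_zero (hn : 1 ≤ n) (d : ℕ) : G.e d 0 = 0 := by
  unfold e w E
  have h1 : G.W (Finset.range 0) (2 * d) = ⊥ := by
    unfold W
    rw [Submodule.span_eq_bot]
    rintro _ ⟨i, hi, -⟩
    simp at hi
  rw [h1, finrank_bot]
  unfold co
  rw [Finset.univ_eq_empty, Finset.prod_empty, mul_one, coeff_mk_one_pow hn]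
  simp

variable {d R : ℕ}

/-- the effect of one more form -/
lemma step [CharZero Ω] (hn : 1 ≤ n) (hd : 1 ≤ d) (hdeg : ∀ i, d ≤ G.deg i)
    (hH : G.w d R + ((Mon n (d - 1)).card + 3) * (Mon n d).card < (Mon n (2 * d)).card)
    {k : ℕ} (hk : k < R) :
    ∃ κ : ℤ, G.e d (k + 1) = G.e d k + κ ∧ 0 ≤ κ ∧ (1 ≤ κ → 1 ≤ G.s d (k + 1)) ∧
      G.s d k ≤ G.s d (k + 1) ∧ (G.deg k = d → G.s d k ≤ κ) := by
  have hins : insert k (Finset.range k) = Finset.range (k + 1) := Finset.range_add_one.symm
  have hkn : k ∉ Finset.range k := by simp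
  have hHk : ∀ l ≤ R, finrank Ω (G.W (Finset.range l) (2 * d)) +
      ((Mon n (d - 1)).card + 3) * (Mon n d).card < (Mon n (2 * d)).card := fun l hl =>
    (Nat.add_le_add_right (G.w_mono hl) _).trans_lt hH
  have hS := fun l (hl : l ≤ R) => G.finrank_S_lt (hHk l hl)
  have hVS : ∀ l ≤ R, ¬ (homogeneousSubmodule (Fin n) Ω d ≤ G.S (Finset.range l) d) := by
    intro l hl h
    have h1 := Submodule.finrank_mono h
    rw [finrank_hom] at h1
    have := hS l hl
    omega
  have hWk : ¬ (homogeneousSubmodule (Fin n) Ω (2 * d) ≤ G.W (Finset.range k) (2 * d)) := by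
    intro h
    have h1 := Submodule.finrank_mono h
    rw [finrank_hom] at h1
    have := hHk k hk.le
    omega
  have hnum := G.num_succ d k
  have hn1 := G.num_le (hVS k hk.le)
  have hn2 := G.num_le (hVS (k + 1) hk)
  have hmono : finrank Ω (G.S (Finset.range k) d) ≤ finrank Ω (G.S (Finset.range (k + 1)) d) :=
    Submodule.finrank_mono (G.S_mono (Finset.range_subset_range.2 (Nat.le_succ k)) d)
  have hE : G.E d (k + 1) = G.E d k -
      (if G.deg k ≤ 2 * d then co n (fun i : Fin k => G.deg i) (2 * d - G.deg k) else 0) :=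
    co_succ n G.deg k (2 * d)
  rcases Nat.lt_trichotomy (G.deg k) d with h | h | h
  · have := hdeg k
    omega
  · -- degree `d`
    refine ⟨(finrank Ω (G.Kr (Finset.range k) k d (2 * d)) : ℤ) - G.num (Finset.range k) d,
      ?_, ?_, ?_, ?_, ?_⟩
    · have h1 := G.finrank_W_insert hn (Finset.range k) k d (2 * d) (by omega)
      rw [hins] at h1
      rw [if_pos (by omega), show 2 * d - G.deg k = d by omega,
        co_low hn hd G.deg hdeg k d le_rfl, if_pos rfl] at hE
      unfold e w
      rw [hE]
      unfold num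
      have h2 : (finrank Ω (G.W (Finset.range (k + 1)) (2 * d)) : ℤ) +
          (finrank Ω (G.Kr (Finset.range k) k d (2 * d)) : ℤ) =
          (finrank Ω (G.W (Finset.range k) (2 * d)) : ℤ) + ((Mon n d).card : ℤ) := by
        exact_mod_cast h1
      linarith
    · have h1 := Submodule.finrank_mono (G.S_le_Kr (Finset.range k) k d h)
      have : (G.num (Finset.range k) d : ℤ) ≤
        (finrank Ω (G.Kr (Finset.range k) k d (2 * d)) : ℤ) := by exact_mod_cast hn1.trans h1
      linarith
    · intro hκ
      have h1 := G.finrank_S_insert hkn h hWk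
      rw [hins] at h1
      unfold s
      rw [hnum, if_pos h]
      push_cast
      have h2 : (finrank Ω (G.Kr (Finset.range k) k d (2 * d)) : ℤ) + 1 ≤
        (finrank Ω (G.S (Finset.range (k + 1)) d) : ℤ) := by exact_mod_cast h1
      linarith
    · have h1 := G.finrank_S_insert hkn h hWk
      rw [hins] at h1
      have h3 := Submodule.finrank_mono (G.S_le_Kr (Finset.range k) k d h)
      unfold s
      rw [hnum, if_pos h]
      push_cast
      have h2 : (finrank Ω (G.Kr (Finset.range k) k d (2 * d)) : ℤ) + 1 ≤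
        (finrank Ω (G.S (Finset.range (k + 1)) d) : ℤ) := by exact_mod_cast h1
      have h4 : (finrank Ω (G.S (Finset.range k) d) : ℤ) ≤
        (finrank Ω (G.Kr (Finset.range k) k d (2 * d)) : ℤ) := by exact_mod_cast h3
      linarith
    · intro _
      have h3 := Submodule.finrank_mono (G.S_le_Kr (Finset.range k) k d h)
      have h4 : (finrank Ω (G.S (Finset.range k) d) : ℤ) ≤
        (finrank Ω (G.Kr (Finset.range k) k d (2 * d)) : ℤ) := by exact_mod_cast h3
      unfold s
      linarith
  · have hs1 : G.s d k ≤ G.s d (k + 1) := by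
      unfold s
      rw [hnum, if_neg (by omega), add_zero]
      have : (finrank Ω (G.S (Finset.range k) d) : ℤ) ≤
        (finrank Ω (G.S (Finset.range (k + 1)) d) : ℤ) := by exact_mod_cast hmono
      linarith
    by_cases h2 : G.deg k ≤ 2 * d
    · -- larger degrees
      obtain ⟨c, hc⟩ : ∃ c, c + G.deg k = 2 * d := ⟨2 * d - G.deg k, by omega⟩
      refine ⟨(finrank Ω (G.Kr (Finset.range k) k c (2 * d)) : ℤ), ?_, by positivity, ?_, hs1,
        fun h' => absurd h' (by omega)⟩
      · have h1 := G.finrank_W_insert hn (Finset.range k) k c (2 * d) hc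
        rw [hins] at h1
        rw [if_pos h2, show 2 * d - G.deg k = c by omega,
          co_low hn hd G.deg hdeg k c (by omega), if_neg (by omega), sub_zero] at hE
        unfold e w
        rw [hE]
        have h2 : (finrank Ω (G.W (Finset.range (k + 1)) (2 * d)) : ℤ) +
            (finrank Ω (G.Kr (Finset.range k) k c (2 * d)) : ℤ) =
            (finrank Ω (G.W (Finset.range k) (2 * d)) : ℤ) + ((Mon n c).card : ℤ) := by
          exact_mod_cast h1
        linarith
      · intro hκ
        have hK : G.Kr (Finset.range k) k c (2 * d) ≠ ⊥ := by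
          intro h0
          rw [h0, finrank_bot] at hκ
          norm_num at hκ
        have h1 := G.Sp_ne_S hkn h hc hK (by
          rw [hins]
          have h4 := hS (k + 1) hk
          have h5 := card_Mon_mono (n := n) hn (show c ≤ d - 1 by omega)
          omega)
        rw [hins] at h1
        unfold s
        have : (G.num (Finset.range (k + 1)) d : ℤ) + 1 ≤
          (finrank Ω (G.S (Finset.range (k + 1)) d) : ℤ) := by exact_mod_cast h1
        linarith
    · refine ⟨0, ?_, le_rfl, fun h0 => absurd h0 (by norm_num), hs1,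
        fun h' => absurd h' (by omega)⟩
      rw [if_neg h2, sub_zero] at hE
      unfold e w
      rw [hE, ← hins, G.W_insert_big (Finset.range k) k (2 * d) (by omega), add_zero]

lemma s_nonneg (hH : G.w d R + ((Mon n (d - 1)).card + 3) * (Mon n d).card < (Mon n (2 * d)).card)
    {k : ℕ} (hk : k ≤ R) : 0 ≤ G.s d k := by
  have h1 := G.finrank_S_lt (I := Finset.range k) (d := d)
    ((Nat.add_le_add_right (G.w_mono hk) _).trans_lt hH)
  have h2 := G.num_le (I := Finset.range k) (d := d) (by
    intro h
    have h1 := Submodule.finrank_mono h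
    rw [finrank_hom] at h1
    omega)
  unfold s
  have : (G.num (Finset.range k) d : ℤ) ≤ (finrank Ω (G.S (Finset.range k) d) : ℤ) := by
    exact_mod_cast h2
  linarith

lemma e_nonneg [CharZero Ω] (hn : 1 ≤ n) (hd : 1 ≤ d) (hdeg : ∀ i, d ≤ G.deg i)
    (hH : G.w d R + ((Mon n (d - 1)).card + 3) * (Mon n d).card < (Mon n (2 * d)).card)
    {k : ℕ} (hk : k ≤ R) : 0 ≤ G.e d k := by
  induction k with
  | zero => rw [G.e_zero hn]
  | succ k ih =>
    obtain ⟨κ, h1, h2, -⟩ := G.step hn hd hdeg hH (show k < R by omega)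
    have := ih (by omega)
    linarith

lemma mono_chain [CharZero Ω] (hn : 1 ≤ n) (hd : 1 ≤ d) (hdeg : ∀ i, d ≤ G.deg i)
    (hH : G.w d R + ((Mon n (d - 1)).card + 3) * (Mon n d).card < (Mon n (2 * d)).card)
    {k l : ℕ} (hkl : k ≤ l) (hl : l ≤ R) : G.e d k ≤ G.e d l ∧ G.s d k ≤ G.s d l := by
  induction l, hkl using Nat.le_induction with
  | base => exact ⟨le_rfl, le_rfl⟩
  | succ l hkl ih =>
    obtain ⟨κ, h1, h2, h3, h4, h5⟩ := G.step hn hd hdeg hH (show l < R by omega)
    obtain ⟨h6, h7⟩ := ih (by omega)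
    exact ⟨by linarith, h7.trans h4⟩

/-- If the excess is not zero, then `S` is not spanned by the forms. -/
lemma s_pos [CharZero Ω] (hn : 1 ≤ n) (hd : 1 ≤ d) (hdeg : ∀ i, d ≤ G.deg i)
    (hH : G.w d R + ((Mon n (d - 1)).card + 3) * (Mon n d).card < (Mon n (2 * d)).card)
    {k : ℕ} (hk : k ≤ R) (he : G.e d k ≠ 0) : 1 ≤ G.s d k := by
  induction k with
  | zero => exact absurd (G.e_zero hn d) he
  | succ k ih =>
    obtain ⟨κ, h1, h2, h3, h4, h5⟩ := G.step hn hd hdeg hH (show k < R by omega)
    by_cases hκ : 1 ≤ κ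
    · exact h3 hκ
    · have hκ0 : κ = 0 := by omega
      rw [hκ0, add_zero] at h1
      exact (ih (by omega) (by rwa [← h1])).trans h4

/-- the growth of `s` along a cycle of forms of the degrees `d, …, 2 d` -/
lemma s_grow [CharZero Ω] 
    (hdeg : ∀ i, d ≤ G.deg i)
    (hH : G.w d R + ((Mon n (d - 1)).card + 3) * (Mon n d).card < (Mon n (2 * d)).card)
    {k : ℕ} (hk : k + (d + 1) ≤ R) (hcyc : ∀ t ≤ d, G.deg (k + t) = d + t)
    (hs : 1 ≤ G.s d k) : G.s d k + 1 ≤ G.s d (k + (d + 1)) := by
  have hHk : finrank Ω (G.W (Finset.range k) (2 * d)) +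
      ((Mon n (d - 1)).card + 3) * (Mon n d).card < (Mon n (2 * d)).card :=
    (Nat.add_le_add_right (G.w_mono (by omega)) _).trans_lt hH
  have hVS : ¬ (homogeneousSubmodule (Fin n) Ω d ≤ G.S (Finset.range k) d) := by
    intro h
    have h1 := Submodule.finrank_mono h
    rw [finrank_hom] at h1
    have := G.finrank_S_lt hHk
    omega
  have hx : G.deg k = d := by simpa using hcyc 0 (Nat.zero_le _)
  have h1 := G.growth (I := Finset.range k) (I' := Finset.range (k + (d + 1))) (d := d)
    (Finset.range_subset_range.2 (by omega)) (fun e => k + (e - d)) (by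
      intro e he1 he2
      refine ⟨?_, ?_, ?_⟩
      · rw [hcyc (e - d) (by omega)]; omega
      · simp only [Finset.mem_range]; omega
      · simp) (fun i _ => hdeg i) (by
      intro p q
      apply G.not_le_sup hHk
      · exact FiniteDimensional.span_of_finite Ω (Set.toFinite _)
      · classical
        have h9 := finrank_span_finset_le_card (R := Ω) ({p, q} : Finset (MvPolynomial (Fin n) Ω))
        rw [Finset.coe_insert, Finset.coe_singleton] at h9
        have h10 : ({p, q} : Finset (MvPolynomial (Fin n) Ω)).card ≤ 2 := Finset.card_le_two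
        have h11 := h9.trans h10
        unfold Set.finrank at h11
        omega) (by
      have h2 : G.Sp (Finset.range k) d < G.S (Finset.range k) d := by
        refine lt_of_le_of_ne (G.Sp_le_S _ _) fun h => ?_
        have h3 := G.finrank_Sp hVS
        rw [h] at h3
        unfold s num at hs
        rw [h3] at hs
        norm_num at hs
      obtain ⟨u, hu, hu'⟩ := SetLike.exists_of_lt h2
      exact ⟨u, hu, hu'⟩)
  simp only [Nat.sub_self, add_zero] at h1
  have hle : G.S (Finset.range k) d ⊔ Submodule.span Ω {G.f k} ≤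
      G.S (Finset.range (k + (d + 1))) d := by
    refine sup_le (G.S_mono (Finset.range_subset_range.2 (by omega)) d) ?_
    rw [Submodule.span_singleton_le_iff_mem]
    exact G.f_mem_S (by simp) hx
  have hfd : FiniteDimensional Ω ↥(G.S (Finset.range k) d ⊔ Submodule.span Ω {G.f k}) :=
    Submodule.finiteDimensional_of_le hle
  have h2 : finrank Ω ↥(G.S (Finset.range k) d ⊔ Submodule.span Ω {G.f k}) <
      finrank Ω (G.S (Finset.range (k + (d + 1))) d) :=
    Submodule.finrank_lt_finrank_of_lt (lt_of_le_of_ne hle fun h => h1 (h ▸ le_rfl))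
  have h3 : finrank Ω (G.S (Finset.range k) d) <
      finrank Ω ↥(G.S (Finset.range k) d ⊔ Submodule.span Ω {G.f k}) := by
    refine Submodule.finrank_lt_finrank_of_lt (lt_of_le_of_ne le_sup_left fun h => ?_)
    apply hVS
    apply G.le_of_f_mem_S (x := k) (by simp) hx
    rw [h]
    exact Submodule.mem_sup_right (Submodule.mem_span_singleton_self _)
  have h4 : ∀ t ≤ d, G.num (Finset.range (k + (t + 1))) d = G.num (Finset.range k) d + 1 := by
    intro t ht
    induction t with
    | zero => rw [zero_add, G.num_succ, if_pos hx]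
    | succ t ih =>
      rw [← add_assoc, G.num_succ, ih (by omega), if_neg]
      rw [hcyc (t + 1) ht]
      omega
  have h5 := h4 d le_rfl
  unfold s
  rw [h5]
  have h6 : (finrank Ω (G.S (Finset.range k) d) : ℤ) + 2 ≤
    (finrank Ω (G.S (Finset.range (k + (d + 1))) d) : ℤ) := by exact_mod_cast (by omega)
  push_cast
  linarith

/-- The dichotomy for the excess. -/
theorem dichotomy [CharZero Ω] (hn : 1 ≤ n) (hd : 1 ≤ d) (hdeg : ∀ i, d ≤ G.deg i) (r J : ℕ)
    (hR : R = r + (d + 1) * J)
    (hH : G.w d R + ((Mon n (d - 1)).card + 3) * (Mon n d).card < (Mon n (2 * d)).card)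
    (hcyc : ∀ c < J, ∀ t ≤ d, G.deg (r + (d + 1) * c + t) = d + t) :
    G.e d r = 0 ∨ (J : ℤ) ^ 2 ≤ 2 * G.e d R := by
  by_cases he : G.e d r = 0
  · exact Or.inl he
  right
  have hr : r ≤ R := by rw [hR]; exact Nat.le_add_right _ _
  have h0 := G.s_pos hn hd hdeg hH hr he
  have key : ∀ c ≤ J, (c : ℤ) + 1 ≤ G.s d (r + (d + 1) * c) ∧
      (c : ℤ) ^ 2 ≤ 2 * G.e d (r + (d + 1) * c) := by
    intro c hc
    induction c with
    | zero =>
      have h1 := G.e_nonneg hn hd hdeg hH hr
      refine ⟨by simpa using h0, ?_⟩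
      simpa using h1
    | succ c ih =>
      obtain ⟨h1, h2⟩ := ih (by omega)
      have hle : r + (d + 1) * c + (d + 1) ≤ R := by
        rw [hR]
        have : (d + 1) * (c + 1) ≤ (d + 1) * J := Nat.mul_le_mul_left _ hc
        rw [mul_add, mul_one] at this
        omega
      have heq : r + (d + 1) * (c + 1) = r + (d + 1) * c + (d + 1) := by ring
      rw [heq]
      have h3 := G.s_grow hdeg hH hle (hcyc c (by omega)) (by linarith)
      obtain ⟨κ, h4, h5, h6, h7, h8⟩ := G.step hn hd hdeg hH
        (show r + (d + 1) * c < R by omega)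
      have h9 := h8 (by simpa using hcyc c (by omega) 0 (Nat.zero_le _))
      have h10 := (G.mono_chain hn hd hdeg hH
        (show r + (d + 1) * c + 1 ≤ r + (d + 1) * c + (d + 1) by omega) hle).1
      push_cast
      refine ⟨by linarith, ?_⟩
      have h11 : ((c : ℤ) + 1) ^ 2 = (c : ℤ) ^ 2 + 2 * c + 1 := by ring
      rw [h11]
      linarith
  have h1 := (key J le_rfl).2
  rwa [← hR] at h1

end GS

end Pool.Agent.N177.FK
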