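import Pool.Agent.N177.FK.Grow
import Pool.Agent.TH206.Fro.Hilb
import Pool.Agent.TH206.Fro.Series

/-!
Dimensions: the effect of one more form.
-/

set_option autoImplicit false

namespace Pool.Agent.N177.FK

open MvPolynomial Module
open Pool.Agent.TH206.Fro (Mon card_Mon)

section lin

variable {F : Type*} [Field F] {A : Type*} [CommRing A] [Algebra F A]

lemma finrank_mul_le (P Q : Submodule F A) [FiniteDimensional F P] [FiniteDimensional F Q] :
    finrank F ↥(P * Q) ≤ finrank F P * finrank F Q := by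
  have h1 := LinearMap.finrank_range_le (Submodule.mulMap P Q)
  rwa [Submodule.mulMap_range, finrank_tensorProduct] at h1

end lin

variable {n : ℕ} {Ω : Type} [Field Ω]

instance fin_hom (k : ℕ) : FiniteDimensional Ω (homogeneousSubmodule (Fin n) Ω k) :=
  Module.Finite.iff_fg.2 (homogeneousSubmodule_fg (Fin n) Ω k)

lemma fd_of_le {k : ℕ} {P : Submodule Ω (MvPolynomial (Fin n) Ω)}
    (h : P ≤ homogeneousSubmodule (Fin n) Ω k) : FiniteDimensional Ω P :=
  Submodule.finiteDimensional_of_le h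

/-- the number of the monomials -/
lemma finrank_hom (k : ℕ) :
    finrank Ω (homogeneousSubmodule (Fin n) Ω k) = (Mon n k).card :=
  Pool.Agent.TH206.Fro.dim_thm n k Ω

namespace GS

variable {ι : Type*} (G : GS n Ω ι)

instance (I : Finset ι) (m : ℕ) : FiniteDimensional Ω (G.W I m) := fd_of_le (G.W_le I m)

instance (I : Finset ι) (d : ℕ) : FiniteDimensional Ω (G.S I d) := fd_of_le (G.S_le I d)

lemma f_ne_zero (hn : 1 ≤ n) (x : ι) : G.f x ≠ 0 := by
  intro h
  have h1 := G.cw_self x (Finsupp.single ⟨0, hn⟩ (G.deg x)) (Finsupp.degree_single _ _)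
  rw [h, cw_zero] at h1
  have h2 := congrArg (MvPolynomial.coeff (Finsupp.single (⟨0, hn⟩ : Fin n) (G.deg x))) h1
  rw [MvPolynomial.coeff_monomial, if_pos rfl, MvPolynomial.coeff_zero] at h2
  exact zero_ne_one h2

/-- the forms of degree `c` whose product with the form `x` is in `W` -/
noncomputable def Kr (I : Finset ι) (x : ι) (c m : ℕ) : Submodule Ω (MvPolynomial (Fin n) Ω) :=
  homogeneousSubmodule (Fin n) Ω c ⊓ (G.W I m).comap (LinearMap.mulRight Ω (G.f x))

lemma mem_Kr (I : Finset ι) (x : ι) (c m : ℕ) (u : MvPolynomial (Fin n) Ω) :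
    u ∈ G.Kr I x c m ↔ u ∈ homogeneousSubmodule (Fin n) Ω c ∧ u * G.f x ∈ G.W I m := Iff.rfl

instance (I : Finset ι) (x : ι) (c m : ℕ) : FiniteDimensional Ω (G.Kr I x c m) :=
  fd_of_le (k := c) inf_le_left

variable [DecidableEq ι]

lemma W_insert (I : Finset ι) (x : ι) (c m : ℕ) (hc : c + G.deg x = m) :
    G.W (insert x I) m = G.W I m ⊔
      (homogeneousSubmodule (Fin n) Ω c).map (LinearMap.mulRight Ω (G.f x)) := by
  apply le_antisymm
  · refine Submodule.span_le.2 ?_
    rintro _ ⟨i, hi, a, ha, rfl⟩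
    rcases Finset.mem_insert.1 hi with rfl | hi
    · apply Submodule.mem_sup_right
      exact ⟨monomial a 1, mono_hom (by omega) 1, rfl⟩
    · apply Submodule.mem_sup_left
      exact Submodule.subset_span ⟨i, hi, a, ha, rfl⟩
  · refine sup_le (G.W_mono (Finset.subset_insert _ _) m) ?_
    rintro _ ⟨g, hg, rfl⟩
    rw [LinearMap.mulRight_apply]
    exact G.mul_mem_W (Finset.mem_insert_self _ _) hg hc

lemma W_insert_big (I : Finset ι) (x : ι) (m : ℕ) (hx : m < G.deg x) :
    G.W (insert x I) m = G.W I m := by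
  apply le_antisymm
  · refine Submodule.span_le.2 ?_
    rintro _ ⟨i, hi, a, ha, rfl⟩
    rcases Finset.mem_insert.1 hi with rfl | hi
    · omega
    · exact Submodule.subset_span ⟨i, hi, a, ha, rfl⟩
  · exact G.W_mono (Finset.subset_insert _ _) m

/-- the dimension of `W` with one more form -/
lemma finrank_W_insert (hn : 1 ≤ n) (I : Finset ι) (x : ι) (c m : ℕ) (hc : c + G.deg x = m) :
    finrank Ω (G.W (insert x I) m) + finrank Ω (G.Kr I x c m) =
      finrank Ω (G.W I m) + (Mon n c).card := by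
  have hinj : Function.Injective (LinearMap.mulRight Ω (G.f x)) := by
    rw [← LinearMap.ker_eq_bot, LinearMap.ker_eq_bot']
    intro g hg
    rw [LinearMap.mulRight_apply] at hg
    exact (mul_eq_zero.1 hg).resolve_right (G.f_ne_zero hn x)
  have h1 := Submodule.finrank_sup_add_finrank_inf_eq (G.W I m)
    ((homogeneousSubmodule (Fin n) Ω c).map (LinearMap.mulRight Ω (G.f x)))
  rw [← G.W_insert I x c m hc] at h1
  have h2 : finrank Ω ((homogeneousSubmodule (Fin n) Ω c).map (LinearMap.mulRight Ω (G.f x))) =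
      (Mon n c).card := by
    rw [← finrank_hom (Ω := Ω) c]
    exact (LinearEquiv.finrank_eq (Submodule.equivMapOfInjective _ hinj _)).symm
  have h3 : G.W I m ⊓ (homogeneousSubmodule (Fin n) Ω c).map (LinearMap.mulRight Ω (G.f x)) =
      (G.Kr I x c m).map (LinearMap.mulRight Ω (G.f x)) := by
    ext g
    constructor
    · rintro ⟨h4, u, hu, rfl⟩
      exact ⟨u, ⟨hu, h4⟩, rfl⟩
    · rintro ⟨u, ⟨hu, h4⟩, rfl⟩
      exact ⟨h4, u, hu, rfl⟩
  have h4 : finrank Ω ((G.Kr I x c m).map (LinearMap.mulRight Ω (G.f x))) =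
      finrank Ω (G.Kr I x c m) :=
    (LinearEquiv.finrank_eq (Submodule.equivMapOfInjective _ hinj _)).symm
  rw [h2, h3, h4] at h1
  exact h1

/-- the forms of degree `d` of the system -/
noncomputable def Sp (I : Finset ι) (d : ℕ) : Submodule Ω (MvPolynomial (Fin n) Ω) :=
  Submodule.span Ω {p | ∃ i ∈ I, G.deg i = d ∧ p = G.f i}

omit [DecidableEq ι] in
lemma Sp_le_S (I : Finset ι) (d : ℕ) : G.Sp I d ≤ G.S I d := by
  refine Submodule.span_le.2 ?_
  rintro _ ⟨i, hi, hd, rfl⟩
  exact G.f_mem_S hi hd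

omit [DecidableEq ι] in
lemma Sp_eq (I : Finset ι) (d : ℕ) : G.Sp I d =
    Submodule.span Ω (Set.range fun i : {i // i ∈ I.filter fun i => G.deg i = d} => G.f i) := by
  unfold Sp
  congr 1
  ext p
  constructor
  · rintro ⟨i, hi, hd, rfl⟩
    exact ⟨⟨i, Finset.mem_filter.2 ⟨hi, hd⟩⟩, rfl⟩
  · rintro ⟨⟨i, hi⟩, rfl⟩
    exact ⟨i, (Finset.mem_filter.1 hi).1, (Finset.mem_filter.1 hi).2, rfl⟩

lemma indep {I : Finset ι} {d : ℕ} (h : ¬ (homogeneousSubmodule (Fin n) Ω d ≤ G.S I d)) :
    LinearIndependent Ω (fun i : {i // i ∈ I.filter fun i => G.deg i = d} => G.f i) := by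
  rw [Fintype.linearIndependent_iff]
  intro g hg j
  by_contra hne
  apply h
  intro q hq
  refine hom_induct (k := d) (G.S I d) LinearMap.id (fun b hb => ?_) hq
  have hj := Finset.mem_filter.1 j.2
  have hfU : ∀ i : {i // i ∈ I.filter fun i => G.deg i = d}, G.f i ∈ G.S I d := fun i =>
    G.f_mem_S (Finset.mem_filter.1 i.2).1 (Finset.mem_filter.1 i.2).2
  have h1 : cw (G.D j b) (∑ i, g i • G.f i) = 0 := by rw [hg, cw_zero]
  rw [cw_sum] at h1
  have h2 : ∀ i : {i // i ∈ I.filter fun i => G.deg i = d},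
      cw (G.D j b) (g i • G.f i) = (G.D j b) (g i) • G.f i +
        (if i = j then g j • monomial b (1 : Ω) else 0) := by
    intro i
    rw [cw_smul]
    by_cases hij : i = j
    · subst hij
      rw [if_pos rfl, G.cw_self i b (hb.trans hj.2.symm)]
    · rw [if_neg hij, G.cw_ne j b (hb.trans hj.2.symm) i (fun h => hij (Subtype.ext h)), smul_zero]
  rw [Finset.sum_congr rfl (fun i _ => h2 i), Finset.sum_add_distrib, Finset.sum_ite_eq'
    Finset.univ j, if_pos (Finset.mem_univ j)] at h1
  have h3 : g j • monomial b (1 : Ω) ∈ G.S I d := by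
    have h4 : g j • monomial b (1 : Ω) = -∑ i, (G.D j b) (g i) • G.f i := by
      rw [eq_neg_iff_add_eq_zero, add_comm]; exact h1
    rw [h4]
    exact Submodule.neg_mem _ (Submodule.sum_mem _ fun i _ => Submodule.smul_mem _ _ (hfU i))
  have h4 := Submodule.smul_mem _ (g j)⁻¹ h3
  rw [smul_smul, inv_mul_cancel₀ hne, one_smul] at h4
  exact h4

lemma finrank_Sp {I : Finset ι} {d : ℕ} (h : ¬ (homogeneousSubmodule (Fin n) Ω d ≤ G.S I d)) :
    finrank Ω (G.Sp I d) = (I.filter fun i => G.deg i = d).card := by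
  rw [G.Sp_eq, finrank_span_eq_card (G.indep h), Fintype.card_coe]

instance (I : Finset ι) (d : ℕ) : FiniteDimensional Ω (G.Sp I d) :=
  fd_of_le ((G.Sp_le_S I d).trans (G.S_le I d))

/-- the number of forms of degree `d` -/
noncomputable def num (I : Finset ι) (d : ℕ) : ℕ := (I.filter fun i => G.deg i = d).card

lemma num_le {I : Finset ι} {d : ℕ} (h : ¬ (homogeneousSubmodule (Fin n) Ω d ≤ G.S I d)) :
    G.num I d ≤ finrank Ω (G.S I d) := by
  unfold num
  rw [← G.finrank_Sp h]
  exact Submodule.finrank_mono (G.Sp_le_S I d)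

omit [DecidableEq ι] in
lemma S_le_Kr (I : Finset ι) (x : ι) (d : ℕ) (hx : G.deg x = d) :
    G.S I d ≤ G.Kr I x d (2 * d) := by
  intro u hu
  have h0 := G.hom x
  rw [hx] at h0
  exact ⟨G.S_le _ _ hu, G.mul_mem_of_S hu h0⟩

/-- a new form of degree `d` -/
lemma finrank_S_insert [CharZero Ω] {I : Finset ι} {x : ι} {d : ℕ} (hxI : x ∉ I)
    (hx : G.deg x = d) (hW : ¬ (homogeneousSubmodule (Fin n) Ω (2 * d) ≤ G.W I (2 * d))) :
    finrank Ω (G.Kr I x d (2 * d)) + 1 ≤ finrank Ω (G.S (insert x I) d) := by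
  have h1 : G.Kr I x d (2 * d) ≤ G.S (insert x I) d := fun u hu =>
    G.tangent_S hxI hx hu.1 hu.2 (Finset.subset_insert _ _) (Finset.mem_insert_self _ _)
  have h2 : G.f x ∈ G.S (insert x I) d := G.f_mem_S (Finset.mem_insert_self _ _) hx
  have h3 : G.f x ∉ G.Kr I x d (2 * d) := fun h => hW (G.W_full_of_sq hxI hx h.2)
  apply Submodule.finrank_lt_finrank_of_lt
  exact lt_of_le_of_ne h1 (fun h => h3 (h ▸ h2))

/-- a new form of a degree larger than `d` -/
lemma Sp_ne_S {I : Finset ι} {x : ι} {d c : ℕ} (hxI : x ∉ I) (hx : d < G.deg x)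
    (hc : c + G.deg x = 2 * d) (hK : G.Kr I x c (2 * d) ≠ ⊥)
    (hd : finrank Ω (G.S (insert x I) d) + (Mon n c).card < (Mon n d).card) :
    G.num (insert x I) d < finrank Ω (G.S (insert x I) d) := by
  have hV : ¬ (homogeneousSubmodule (Fin n) Ω d ≤ G.S (insert x I) d) := by
    intro h
    have h1 := Submodule.finrank_mono h
    rw [finrank_hom] at h1
    omega
  refine lt_of_le_of_ne (G.num_le hV) fun heq => ?_
  unfold num at heq
  rw [← G.finrank_Sp hV] at heq
  have hSp : G.Sp (insert x I) d = G.S (insert x I) d :=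
    Submodule.eq_of_le_of_finrank_eq (G.Sp_le_S _ _) heq
  obtain ⟨u, hu, hu0⟩ := Submodule.exists_mem_ne_zero_of_ne_bot hK
  have hu1 := hu.1
  have hu2 : u * G.f x ∈ G.W I (2 * d) := hu.2
  obtain ⟨a, ha⟩ : ∃ a : Fin n →₀ ℕ, Finsupp.degree a = G.deg x - d := by
    obtain ⟨m, hm⟩ := (MvPolynomial.support_nonempty (p := G.f x)).2 (by
      rintro h
      apply hK
      rcases Nat.eq_zero_or_pos n with hn | hn
      · exfalso
        subst hn
        have h1 : (Mon 0 d).card = 0 := by
          rw [card_Mon]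
          have : 0 < G.deg x := by omega
          have hd0 : d ≠ 0 := by omega
          exact Nat.choose_eq_zero_of_lt (by omega)
        omega
      · exact absurd h (G.f_ne_zero hn x))
    have hm1 := deg_of_mem (G.hom x) (MvPolynomial.mem_support_iff.1 hm)
    obtain ⟨a, b, -, ha, -⟩ := split_mono m hm1 (show (G.deg x - d) + d = G.deg x by omega)
    exact ⟨a, ha⟩
  have hua : u * monomial a (1 : Ω) ∈ G.S (insert x I) d := by
    refine (G.mem_S _ _ _).2 ⟨?_, fun w hw => ?_⟩
    · have h1 := (mem_homogeneousSubmodule _ _).1 hu1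
      have h2 := h1.mul ((mem_homogeneousSubmodule _ _).1 (mono_hom ha (1 : Ω)))
      have h3 : c + (G.deg x - d) = d := by omega
      rw [h3] at h2
      exact h2
    · rw [mul_assoc, monomial_mul, one_mul]
      exact G.tangent hxI hc hu1 hu2 (Finset.subset_insert _ _) (Finset.mem_insert_self _ _) _
        (by rw [map_add, ha, hw]; omega)
  have hua0 : u * monomial a (1 : Ω) ≠ 0 := mul_ne_zero hu0 (by
    rw [Ne, monomial_eq_zero]; exact one_ne_zero)
  rw [← hSp, G.Sp_eq, Submodule.mem_span_range_iff_exists_fun] at hua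
  obtain ⟨g, hg⟩ := hua
  obtain ⟨j, hj⟩ : ∃ j, g j ≠ 0 := by
    by_contra hne
    push Not at hne
    apply hua0
    rw [← hg]
    exact Finset.sum_eq_zero fun i _ => by rw [hne i, zero_smul]
  have hj2 := Finset.mem_filter.1 j.2
  -- all forms of degree `d` are in a small space
  have hle : homogeneousSubmodule (Fin n) Ω d ≤ G.S (insert x I) d ⊔
      (homogeneousSubmodule (Fin n) Ω c).map (LinearMap.mulRight Ω (monomial a (1 : Ω))) := by
    intro q hq
    refine hom_induct (k := d) (G.S (insert x I) d ⊔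
      (homogeneousSubmodule (Fin n) Ω c).map (LinearMap.mulRight Ω (monomial a (1 : Ω))))
      LinearMap.id (fun b hb => ?_) hq
    have h1 : cw (G.D j b) (∑ i, g i • G.f i) = cw (G.D j b) u * monomial a 1 := by
      rw [hg, cw_mul, cw_monomial_one, mul_zero, add_zero]
    rw [cw_sum] at h1
    have h2 : ∀ i : {i // i ∈ (insert x I).filter fun i => G.deg i = d},
        cw (G.D j b) (g i • G.f i) = (G.D j b) (g i) • G.f i +
          (if i = j then g j • monomial b (1 : Ω) else 0) := by
      intro i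
      rw [cw_smul]
      by_cases hij : i = j
      · subst hij
        rw [if_pos rfl, G.cw_self i b (hb.trans hj2.2.symm)]
      · rw [if_neg hij, G.cw_ne j b (hb.trans hj2.2.symm) i (fun h => hij (Subtype.ext h)),
          smul_zero]
    rw [Finset.sum_congr rfl (fun i _ => h2 i), Finset.sum_add_distrib, Finset.sum_ite_eq'
      Finset.univ j, if_pos (Finset.mem_univ j)] at h1
    have h3 : g j • monomial b (1 : Ω) ∈ G.S (insert x I) d ⊔
        (homogeneousSubmodule (Fin n) Ω c).map (LinearMap.mulRight Ω (monomial a (1 : Ω))) := by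
      have h4 : g j • monomial b (1 : Ω) = -(∑ i, (G.D j b) (g i) • G.f i) +
          cw (G.D j b) u * monomial a 1 := by
        rw [← h1]; abel
      rw [h4]
      refine Submodule.add_mem _ (Submodule.mem_sup_left ?_) (Submodule.mem_sup_right ?_)
      · exact Submodule.neg_mem _ (Submodule.sum_mem _ fun i _ => Submodule.smul_mem _ _
          (G.f_mem_S (Finset.mem_filter.1 i.2).1 (Finset.mem_filter.1 i.2).2))
      · exact ⟨_, cw_hom _ hu1, rfl⟩
    have h4 := Submodule.smul_mem _ (g j)⁻¹ h3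
    rw [smul_smul, inv_mul_cancel₀ hj, one_smul] at h4
    exact h4
  have h1 := Submodule.finrank_mono hle
  have h2 := Submodule.finrank_add_le_finrank_add_finrank (G.S (insert x I) d)
    ((homogeneousSubmodule (Fin n) Ω c).map (LinearMap.mulRight Ω (monomial a (1 : Ω))))
  have h3 := Submodule.finrank_map_le (LinearMap.mulRight Ω (monomial a (1 : Ω)))
    (homogeneousSubmodule (Fin n) Ω c)
  rw [finrank_hom] at h1 h3
  omega

omit [DecidableEq ι] in
/-- The codimension of `S` is large if that of `W` is. -/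
lemma not_le_sup {I : Finset ι} {d k : ℕ}
    (h : finrank Ω (G.W I (2 * d)) + k * (Mon n d).card < (Mon n (2 * d)).card)
    (C : Submodule Ω (MvPolynomial (Fin n) Ω)) (hC : FiniteDimensional Ω C)
    (hCk : finrank Ω C ≤ k) : ¬ (homogeneousSubmodule (Fin n) Ω d ≤ G.S I d ⊔ C) := by
  intro hle
  have h1 : homogeneousSubmodule (Fin n) Ω (2 * d) ≤ G.W I (2 * d) ⊔
      C * homogeneousSubmodule (Fin n) Ω d := by
    intro q hq
    refine hom_induct (k := 2 * d) (G.W I (2 * d) ⊔ C * homogeneousSubmodule (Fin n) Ω d)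
      LinearMap.id (fun s hs => ?_) hq
    obtain ⟨a, b, hab, ha, hb⟩ := split_mono s hs (two_mul d).symm
    obtain ⟨u, hu, v, hv, huv⟩ := Submodule.mem_sup.1 (hle (mono_hom ha (1 : Ω)))
    have h2 : monomial s (1 : Ω) = u * monomial b 1 + v * monomial b 1 := by
      rw [← add_mul, huv, monomial_mul, one_mul, hab]
    show monomial s (1 : Ω) ∈ _
    rw [h2]
    exact Submodule.add_mem _ (Submodule.mem_sup_left (hu.2 b hb))
      (Submodule.mem_sup_right (Submodule.mul_mem_mul hv (mono_hom hb 1)))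
  have hfd : FiniteDimensional Ω ↥(C * homogeneousSubmodule (Fin n) Ω d) :=
    Module.Finite.iff_fg.2 (Submodule.FG.mul (Module.Finite.iff_fg.1 hC) (homogeneousSubmodule_fg (Fin n) Ω d))
  have h2 := Submodule.finrank_mono h1
  have h3 := Submodule.finrank_add_le_finrank_add_finrank (G.W I (2 * d))
    (C * homogeneousSubmodule (Fin n) Ω d)
  have h4 := finrank_mul_le C (homogeneousSubmodule (Fin n) Ω d)
  rw [finrank_hom] at h2 h4
  have h5 := Nat.mul_le_mul_right (Mon n d).card hCk
  omega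

omit [DecidableEq ι] in
lemma finrank_S_lt {I : Finset ι} {d k : ℕ}
    (h : finrank Ω (G.W I (2 * d)) + k * (Mon n d).card < (Mon n (2 * d)).card) :
    finrank Ω (G.S I d) + k < (Mon n d).card := by
  by_contra hne
  push Not at hne
  -- a complement
  obtain ⟨C, hC⟩ := Submodule.exists_isCompl (Submodule.comap
    (homogeneousSubmodule (Fin n) Ω d).subtype (G.S I d))
  have h1 := Submodule.finrank_add_eq_of_isCompl hC
  have h2 : finrank Ω (Submodule.comap (homogeneousSubmodule (Fin n) Ω d).subtype (G.S I d)) =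
      finrank Ω (G.S I d) :=
    (Submodule.comapSubtypeEquivOfLe (G.S_le I d)).finrank_eq
  rw [h2, finrank_hom] at h1
  have h3 : finrank Ω (C.map (homogeneousSubmodule (Fin n) Ω d).subtype) ≤ k := by
    refine (Submodule.finrank_map_le _ _).trans ?_
    omega
  refine G.not_le_sup h _ (fd_of_le (k := d) (Submodule.map_subtype_le _ _)) h3 ?_
  intro q hq
  obtain ⟨y, hy, z, hz, hyz⟩ := Submodule.mem_sup.1 (hC.sup_eq_top ▸
    (Submodule.mem_top (x := (⟨q, hq⟩ : homogeneousSubmodule (Fin n) Ω d))))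
  have h4 : q = (y : MvPolynomial (Fin n) Ω) + z := (congrArg Subtype.val hyz).symm
  rw [h4]
  exact Submodule.add_mem _ (Submodule.mem_sup_left hy) (Submodule.mem_sup_right ⟨z, hz, rfl⟩)

end GS

end Pool.Agent.N177.FK
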