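import Pool.Agent.N177.FK.Sys

/-!
Constant vectors in `S`: the action of the general linear group.
-/

set_option autoImplicit false

namespace Pool.Agent.N177.FK

open MvPolynomial

variable {n : ℕ} {Ω : Type*} [Field Ω]

lemma cw_add_der (δ ε : Derivation ℤ Ω Ω) (p : MvPolynomial (Fin n) Ω) :
    cw (δ + ε) p = cw δ p + cw ε p := by
  ext a
  simp only [MvPolynomial.coeff_add, coeff_cw', Derivation.add_apply]

lemma cw_zero_der (p : MvPolynomial (Fin n) Ω) : cw (0 : Derivation ℤ Ω Ω) p = 0 := by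
  ext a
  simp only [MvPolynomial.coeff_zero, coeff_cw', Derivation.coe_zero, Pi.zero_apply]

lemma cw_smul_der (c : Ω) (δ : Derivation ℤ Ω Ω) (p : MvPolynomial (Fin n) Ω) :
    cw (c • δ) p = c • cw δ p := by
  ext a
  simp only [MvPolynomial.coeff_smul, coeff_cw', Derivation.coe_smul, Pi.smul_apply]

lemma cw_sum_der {α : Type*} (s : Finset α) (c : α → Ω) (δ : α → Derivation ℤ Ω Ω)
    (p : MvPolynomial (Fin n) Ω) :
    cw (∑ i ∈ s, c i • δ i) p = ∑ i ∈ s, c i • cw (δ i) p := by
  classical
  induction s using Finset.induction_on with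
  | empty => simp [cw_zero_der]
  | insert i s hi ih => rw [Finset.sum_insert hi, Finset.sum_insert hi, cw_add_der, ih,
      cw_smul_der]

lemma cw_comm {δ ε : Derivation ℤ Ω Ω} (h : ∀ c, δ (ε c) = ε (δ c))
    (p : MvPolynomial (Fin n) Ω) : cw δ (cw ε p) = cw ε (cw δ p) := by
  ext a
  simp only [coeff_cw', h]

lemma cw_pderiv (δ : Derivation ℤ Ω Ω) (b : Fin n) (p : MvPolynomial (Fin n) Ω) :
    cw δ (pderiv b p) = pderiv b (cw δ p) := by
  ext m
  rw [coeff_cw', coeff_pderiv, coeff_pderiv, coeff_cw', Derivation.leibniz]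
  have h : δ ((m b : Ω) + 1) = 0 := by
    rw [map_add, Derivation.map_natCast, Derivation.map_one_eq_zero, add_zero]
  rw [h, smul_zero, zero_add, smul_eq_mul, mul_comm]

lemma cw_X (δ : Derivation ℤ Ω Ω) (a : Fin n) : cw δ (X a) = 0 := cw_monomial_one δ _

/-- the operator `x_a ∂_b` -/
noncomputable def eu (a b : Fin n) (p : MvPolynomial (Fin n) Ω) : MvPolynomial (Fin n) Ω :=
  X a * pderiv b p

lemma eu_add (a b : Fin n) (p q : MvPolynomial (Fin n) Ω) : eu a b (p + q) = eu a b p + eu a b q := by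
  unfold eu; rw [map_add, mul_add]

lemma eu_smul (a b : Fin n) (c : Ω) (p : MvPolynomial (Fin n) Ω) :
    eu a b (c • p) = c • eu a b p := by
  unfold eu; rw [Derivation.map_smul, mul_smul_comm]

lemma eu_zero (a b : Fin n) : eu a b (0 : MvPolynomial (Fin n) Ω) = 0 := by
  unfold eu; rw [map_zero, mul_zero]

lemma eu_mul (a b : Fin n) (p q : MvPolynomial (Fin n) Ω) :
    eu a b (p * q) = eu a b p * q + p * eu a b q := by
  unfold eu; rw [pderiv_mul]; ring

lemma cw_eu (δ : Derivation ℤ Ω Ω) (a b : Fin n) (p : MvPolynomial (Fin n) Ω) :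
    cw δ (eu a b p) = eu a b (cw δ p) := by
  unfold eu; rw [cw_mul, cw_X, zero_mul, zero_add, cw_pderiv]

lemma eu_hom (a b : Fin n) {p : MvPolynomial (Fin n) Ω} {k : ℕ}
    (hp : p ∈ homogeneousSubmodule (Fin n) Ω k) : eu a b p ∈ homogeneousSubmodule (Fin n) Ω k := by
  rw [mem_homogeneousSubmodule] at hp ⊢
  rcases Nat.eq_zero_or_pos k with rfl | hk
  · rw [← totalDegree_zero_iff_isHomogeneous, totalDegree_eq_zero_iff_eq_C] at hp
    unfold eu
    rw [hp, pderiv_C, mul_zero]
    exact isHomogeneous_zero _ _ _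
  · have h1 := (isHomogeneous_X Ω a).mul (hp.pderiv (i := b))
    have h2 : 1 + (k - 1) = k := by omega
    rw [h2] at h1
    exact h1

lemma coeff_eu_self (b : Fin n) (p : MvPolynomial (Fin n) Ω) (s : Fin n →₀ ℕ) :
    MvPolynomial.coeff s (eu b b p) = (s b : Ω) * MvPolynomial.coeff s p := by
  classical
  unfold eu
  rw [coeff_X_mul']
  split_ifs with h
  · rw [coeff_pderiv]
    have h1 : 1 ≤ s b := by
      rw [Finsupp.mem_support_iff] at h
      omega
    have h2 : s - Finsupp.single b 1 + Finsupp.single b 1 = s :=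
      tsub_add_cancel_of_le (by rwa [Finsupp.single_le_iff])
    rw [h2]
    have h3 : (((s - Finsupp.single b 1 : Fin n →₀ ℕ) b : ℕ) : Ω) + 1 = (s b : Ω) := by
      have : (s - Finsupp.single b 1 : Fin n →₀ ℕ) b + 1 = s b := by
        simp only [Finsupp.coe_tsub, Pi.sub_apply, Finsupp.single_eq_same]
        omega
      exact_mod_cast congrArg (Nat.cast : ℕ → Ω) this
    rw [h3, mul_comm]
  · have h1 : s b = 0 := by simpa using h
    rw [h1, Nat.cast_zero, zero_mul]

lemma eu_monomial (a b : Fin n) (s : Fin n →₀ ℕ) :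
    eu a b (monomial s (1 : Ω)) =
      (s b : Ω) • monomial (s - Finsupp.single b 1 + Finsupp.single a 1) (1 : Ω) := by
  unfold eu
  rw [pderiv_monomial, X, monomial_mul, one_mul, one_mul, smul_monomial, smul_eq_mul, mul_one,
    add_comm (Finsupp.single a 1)]

/-- A subset of the forms of degree `d` that is stable under the operators `x_a ∂_b`. -/
theorem all_of_one [CharZero Ω] {d : ℕ} (T : Set (Fin n →₀ ℕ))
    (hT : ∀ s ∈ T, ∀ a b : Fin n, 0 < s b → s - Finsupp.single b 1 + Finsupp.single a 1 ∈ T)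
    (s : Fin n →₀ ℕ) (hs : s ∈ T) (hsd : Finsupp.degree s = d) (t : Fin n →₀ ℕ)
    (htd : Finsupp.degree t = d) : t ∈ T := by
  classical
  obtain ⟨N, hN⟩ : ∃ N, ∑ i, (t i - s i) = N := ⟨_, rfl⟩
  induction N generalizing s with
  | zero =>
    have h1 : ∀ i, t i ≤ s i := by
      intro i
      have := (Finset.sum_eq_zero_iff.1 hN) i (Finset.mem_univ i)
      omega
    have h2 : ∑ i, t i = ∑ i, s i := by
      rw [← Finsupp.degree_eq_sum, ← Finsupp.degree_eq_sum, htd, hsd]
    have h3 := (Finset.sum_eq_sum_iff_of_le (fun i _ => h1 i)).1 h2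
    have h4 : t = s := by
      ext i
      exact h3 i (Finset.mem_univ i)
    rwa [h4]
  | succ N ih =>
    obtain ⟨a, ha⟩ : ∃ a, s a < t a := by
      by_contra hne
      push Not at hne
      have : ∑ i, (t i - s i) = 0 := Finset.sum_eq_zero fun i _ => by
        have := hne i
        omega
      omega
    obtain ⟨b, hb⟩ : ∃ b, t b < s b := by
      by_contra hne
      push Not at hne
      have h2 : ∑ i, t i = ∑ i, s i := by
        rw [← Finsupp.degree_eq_sum, ← Finsupp.degree_eq_sum, htd, hsd]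
      have h3 := Finset.sum_lt_sum (fun i _ => hne i) ⟨a, Finset.mem_univ a, ha⟩
      omega
    have hab : a ≠ b := by rintro rfl; omega
    have h1 : s - Finsupp.single b 1 + Finsupp.single b 1 = s :=
      tsub_add_cancel_of_le (by rw [Finsupp.single_le_iff]; omega)
    refine ih (s - Finsupp.single b 1 + Finsupp.single a 1) (hT s hs a b (by omega)) ?_ ?_
    · have h2 := congrArg Finsupp.degree h1
      rw [map_add, Finsupp.degree_single] at h2
      rw [map_add, Finsupp.degree_single, h2, hsd]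
    · have h2 : ∀ i, t i - (s - Finsupp.single b 1 + Finsupp.single a 1 : Fin n →₀ ℕ) i +
          (if i = a then 1 else 0) = t i - s i := by
        intro i
        simp only [Finsupp.coe_add, Finsupp.coe_tsub, Pi.add_apply, Pi.sub_apply,
          Finsupp.single_apply]
        by_cases hia : i = a
        · subst hia
          rw [if_neg (Ne.symm hab), if_pos rfl]
          omega
        · rw [if_neg (Ne.symm hia), if_neg hia]
          by_cases hib : i = b
          · subst hib
            rw [if_pos rfl]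
            omega
          · rw [if_neg (Ne.symm hib)]
            omega
      have h3 : ∑ i, (t i - (s - Finsupp.single b 1 + Finsupp.single a 1 : Fin n →₀ ℕ) i) + 1 =
          N + 1 := by
        rw [← hN]
        simp only [← h2]
        rw [Finset.sum_add_distrib, Finset.sum_ite_eq' Finset.univ a (fun _ => 1),
          if_pos (Finset.mem_univ a)]
      omega

namespace GS

variable {ι : Type*} (G : GS n Ω ι)

/-- constant vectors -/
def Cst (u : MvPolynomial (Fin n) Ω) : Prop :=
  ∀ i a, Finsupp.degree a = G.deg i → cw (G.D i a) u = 0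

lemma Cst.eu {G : GS n Ω ι} {u : MvPolynomial (Fin n) Ω} (h : G.Cst u) (a b : Fin n) :
    G.Cst (eu a b u) := by
  intro i c hc
  rw [cw_eu, h i c hc, eu_zero]

lemma Cst.nsmul {G : GS n Ω ι} {u : MvPolynomial (Fin n) Ω} (h : G.Cst u) (k : ℕ) :
    G.Cst ((k : Ω) • u) := by
  intro i c hc
  rw [cw_smul, h i c hc, smul_zero, add_zero, Derivation.map_natCast, zero_smul]

lemma Cst.sub {G : GS n Ω ι} {u v : MvPolynomial (Fin n) Ω} (h : G.Cst u) (h' : G.Cst v) :
    G.Cst (u - v) := by
  intro i c hc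
  rw [cw_sub, h i c hc, h' i c hc, sub_zero]

lemma cst_mono (a : Fin n →₀ ℕ) : G.Cst (monomial a (1 : Ω)) := fun _ _ _ => cw_monomial_one _ _

/-- The operators `x_a ∂_b` preserve the constant vectors of `S`. -/
theorem eu_mem_S {I : Finset ι} {d : ℕ} {u : MvPolynomial (Fin n) Ω} (hu : u ∈ G.S I d)
    (hc : G.Cst u) (a b : Fin n) : eu a b u ∈ G.S I d := by
  classical
  -- the compensating derivation
  let T : Finset (Σ _ : ι, Fin n →₀ ℕ) := I.sigma fun i => (eu a b (G.f i)).support
  let cf : (Σ _ : ι, Fin n →₀ ℕ) → Ω := fun s => -(MvPolynomial.coeff s.2 (eu a b (G.f s.1)))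
  let δ : Derivation ℤ Ω Ω := ∑ s ∈ T, cf s • G.D s.1 s.2
  have hδ : ∀ p : MvPolynomial (Fin n) Ω, cw δ p = ∑ s ∈ T, cf s • cw (G.D s.1 s.2) p :=
    fun p => cw_sum_der T cf (fun s => G.D s.1 s.2) p
  have hdeg : ∀ i, ∀ m ∈ (eu a b (G.f i)).support, Finsupp.degree m = G.deg i := by
    intro i m hm
    exact deg_of_mem (eu_hom a b (G.hom i)) (MvPolynomial.mem_support_iff.1 hm)
  have hf : ∀ j ∈ I, eu a b (G.f j) + cw δ (G.f j) = 0 := by
    intro j hj
    rw [hδ, Finset.sum_sigma, Finset.sum_eq_single j]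
    · have h1 : ∀ m ∈ (eu a b (G.f j)).support,
          cf ⟨j, m⟩ • cw (G.D j m) (G.f j) =
            -(monomial m (MvPolynomial.coeff m (eu a b (G.f j)))) := by
        intro m hm
        rw [G.cw_self j m (hdeg j m hm), smul_monomial, smul_eq_mul, mul_one]
        show monomial m (-(MvPolynomial.coeff m (eu a b (G.f j)))) = _
        rw [map_neg]
      rw [Finset.sum_congr rfl h1, Finset.sum_neg_distrib, support_sum_monomial_coeff,
        add_neg_cancel]
    · intro i hi hij
      refine Finset.sum_eq_zero fun m hm => ?_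
      rw [G.cw_ne i m (hdeg i m hm) j (Ne.symm hij), smul_zero]
    · intro h
      exact absurd hj h
  have hcst : ∀ p : MvPolynomial (Fin n) Ω, G.Cst p → cw δ p = 0 := by
    intro p hp
    rw [hδ]
    refine Finset.sum_eq_zero fun s hs => ?_
    have h1 := (Finset.mem_sigma.1 hs).2
    rw [hp s.1 s.2 (hdeg _ _ h1), smul_zero]
  -- the operator preserves `W`
  have hW : ∀ p ∈ G.W I (2 * d), eu a b p + cw δ p ∈ G.W I (2 * d) := by
    intro p hp
    induction hp using Submodule.span_induction with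
    | mem x hx =>
      obtain ⟨i, hi, c, hc, rfl⟩ := hx
      rw [eu_mul, cw_mul, cw_monomial_one, zero_mul, zero_add, add_assoc, ← mul_add, hf i hi,
        mul_zero, add_zero]
      exact G.mul_mem_W hi (eu_hom a b (mono_hom rfl 1)) hc
    | zero => rw [eu_zero, cw_zero, add_zero]; exact Submodule.zero_mem _
    | add x y _ _ hx hy =>
      rw [eu_add, cw_add, add_add_add_comm]
      exact Submodule.add_mem _ hx hy
    | smul c x hx hx2 =>
      rw [eu_smul, cw_smul, add_left_comm, ← smul_add]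
      exact Submodule.add_mem _ (Submodule.smul_mem _ _ hx) (Submodule.smul_mem _ _ hx2)
  refine (G.mem_S _ _ _).2 ⟨eu_hom a b (G.S_le _ _ hu), fun w hw => ?_⟩
  have h1 := hW _ (((G.mem_S _ _ _).1 hu).2 w hw)
  rw [eu_mul, cw_mul, hcst u hc, zero_mul, hcst _ (G.cst_mono w), mul_zero, add_zero,
    add_zero] at h1
  have h2 : u * eu a b (monomial w 1) ∈ G.W I (2 * d) :=
    G.mul_mem_of_S hu (eu_hom a b (mono_hom hw 1))
  have h3 := Submodule.sub_mem _ h1 h2
  rwa [add_sub_cancel_right] at h3

/-- If `S` has a nonzero constant vector, then it is everything. -/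
theorem S_full_of_cst [CharZero Ω] {I : Finset ι} {d : ℕ} {u : MvPolynomial (Fin n) Ω}
    (hu : u ∈ G.S I d) (hc : G.Cst u) (hu0 : u ≠ 0) :
    homogeneousSubmodule (Fin n) Ω d ≤ G.S I d := by
  classical
  have hex : ∃ k, ∃ w ∈ G.S I d, G.Cst w ∧ w ≠ 0 ∧ w.support.card = k :=
    ⟨_, u, hu, hc, hu0, rfl⟩
  obtain ⟨w, hwS, hwc, hw0, hwk⟩ := Nat.find_spec hex
  have hmin := fun k (hk : k < Nat.find hex) => Nat.find_min hex hk
  obtain ⟨m, hm⟩ := (MvPolynomial.support_nonempty (p := w)).2 hw0
  have hm' : MvPolynomial.coeff m w ≠ 0 := MvPolynomial.mem_support_iff.1 hm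
  have hone : ∀ m' ∈ w.support, m' = m := by
    intro m' hm2
    by_contra hne
    obtain ⟨b, hb⟩ : ∃ b, m' b ≠ m b := by
      by_contra h
      push Not at h
      exact hne (Finsupp.ext h)
    have hco : ∀ s, MvPolynomial.coeff s (eu b b w - (m b : Ω) • w) =
        ((s b : Ω) - (m b : Ω)) * MvPolynomial.coeff s w := by
      intro s
      rw [MvPolynomial.coeff_sub, coeff_eu_self, MvPolynomial.coeff_smul, smul_eq_mul]
      ring
    have h1 : (eu b b w - (m b : Ω) • w).support ⊆ w.support.erase m := by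
      intro s hs
      rw [MvPolynomial.mem_support_iff, hco] at hs
      rw [Finset.mem_erase, MvPolynomial.mem_support_iff]
      refine ⟨?_, right_ne_zero_of_mul hs⟩
      rintro rfl
      exact hs (by rw [sub_self, zero_mul])
    have h2 : eu b b w - (m b : Ω) • w ≠ 0 := by
      intro h
      have h3 := hco m'
      rw [h, MvPolynomial.coeff_zero] at h3
      have h4 : ((m' b : Ω) - (m b : Ω)) ≠ 0 := by
        rw [sub_ne_zero]
        exact_mod_cast hb
      exact mul_ne_zero h4 (MvPolynomial.mem_support_iff.1 hm2) h3.symm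
    refine hmin _ ?_ ⟨_, Submodule.sub_mem _ (G.eu_mem_S hwS hwc b b)
      (Submodule.smul_mem _ _ hwS), (hwc.eu b b).sub (hwc.nsmul _), h2, rfl⟩
    rw [← hwk]
    exact (Finset.card_le_card h1).trans_lt (Finset.card_erase_lt_of_mem hm)
  have hw1 : w = monomial m (MvPolynomial.coeff m w) := by
    conv_lhs => rw [← w.support_sum_monomial_coeff]
    rw [Finset.sum_eq_single m]
    · intro s hs hsm
      exact absurd (hone s hs) hsm
    · intro h
      exact absurd hm h
  have hmS : monomial m (1 : Ω) ∈ G.S I d := by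
    have h1 := Submodule.smul_mem _ (MvPolynomial.coeff m w)⁻¹ hwS
    rw [hw1, smul_monomial, smul_eq_mul, MvPolynomial.coeff_monomial, if_pos rfl,
      inv_mul_cancel₀ hm'] at h1
    exact h1
  have hmd : Finsupp.degree m = d := deg_of_mem (G.S_le _ _ hwS) hm'
  have hall := all_of_one (Ω := Ω) (d := d) {s | monomial s (1 : Ω) ∈ G.S I d} (by
    intro s hs a b hb
    have h1 := G.eu_mem_S hs (G.cst_mono s) a b
    rw [eu_monomial] at h1
    have h2 : (s b : Ω) ≠ 0 := by exact_mod_cast hb.ne'
    have h3 := Submodule.smul_mem _ (s b : Ω)⁻¹ h1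
    rwa [smul_smul, inv_mul_cancel₀ h2, one_smul] at h3) m hmS hmd
  intro g hg
  exact hom_induct (k := d) (G.S I d) LinearMap.id (fun b hb => hall b hb) hg

end GS

end Pool.Agent.N177.FK
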