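import Pool.Agent.N177.FK.Gl

/-!
The growth of `S` when forms are added.
-/

set_option autoImplicit false

namespace Pool.Agent.N177.FK

open MvPolynomial

variable {n : ℕ} {Ω : Type*} [Field Ω]

namespace GS

variable {ι : Type*} (G : GS n Ω ι)

/-- The space `S` grows by at least two dimensions (with the new form) if it is not generated by
the forms. -/
theorem growth [CharZero Ω] {I I' : Finset ι} {d : ℕ} (hII' : I ⊆ I') (cyc : ℕ → ι)
    (hcyc : ∀ e, d ≤ e → e ≤ 2 * d → G.deg (cyc e) = e ∧ cyc e ∈ I' ∧ cyc e ∉ I)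
    (hI : ∀ i ∈ I, d ≤ G.deg i)
    (h3 : ∀ p q : MvPolynomial (Fin n) Ω,
      ¬ (homogeneousSubmodule (Fin n) Ω d ≤ G.S I d ⊔ Submodule.span Ω {p, q}))
    (hu : ∃ u ∈ G.S I d, u ∉ Submodule.span Ω {p | ∃ i ∈ I, G.deg i = d ∧ p = G.f i}) :
    ¬ (G.S I' d ≤ G.S I d ⊔ Submodule.span Ω {G.f (cyc d)}) := by
  classical
  intro hle
  set U := G.S I d with hU
  obtain ⟨hxd, hxI', hxI⟩ := hcyc d le_rfl (by omega)
  set x := cyc d with hx
  set M := U ⊔ Submodule.span Ω {G.f x} with hM
  have memM : ∀ v ∈ M, ∃ s ∈ U, ∃ μ : Ω, v = s + μ • G.f x := by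
    intro v hv
    obtain ⟨s, hs, y, hy, rfl⟩ := Submodule.mem_sup.1 hv
    obtain ⟨μ, rfl⟩ := Submodule.mem_span_singleton.1 hy
    exact ⟨s, hs, μ, rfl⟩
  have hUM : U ≤ M := le_sup_left
  have hfM : G.f x ∈ M := le_sup_right (a := U) (Submodule.mem_span_singleton_self _)
  have hVM : ∀ p, ¬ (homogeneousSubmodule (Fin n) Ω d ≤ M ⊔ Submodule.span Ω {p}) := by
    intro p hp
    apply h3 (G.f x) p
    rwa [Submodule.span_insert, ← sup_assoc]
  have hVM0 : ¬ (homogeneousSubmodule (Fin n) Ω d ≤ M) := fun h => hVM 0 (h.trans le_sup_left)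
  have hVU : ¬ (homogeneousSubmodule (Fin n) Ω d ≤ U) := fun h => hVM0 (h.trans hUM)
  have exM : ∀ N : Submodule Ω (MvPolynomial (Fin n) Ω),
      ¬ (homogeneousSubmodule (Fin n) Ω d ≤ N) →
      ∃ b : Fin n →₀ ℕ, Finsupp.degree b = d ∧ monomial b (1 : Ω) ∉ N := by
    intro N hN
    by_contra hne
    push Not at hne
    exact hN fun g hg => hom_induct (k := d) N LinearMap.id (fun b hb => hne b hb) hg
  -- stability under the derivations for the new forms
  have stU : ∀ j, j ∉ I → ∀ a, Finsupp.degree a = G.deg j → ∀ v ∈ U, cw (G.D j a) v ∈ U :=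
    fun j hj a ha v hv => G.cw_mem_S _ (G.cw_D_eq_zero ha (Or.inl hj)) hv
  have stU' : ∀ j, 2 * d < G.deg j → ∀ a, Finsupp.degree a = G.deg j → ∀ v ∈ U,
      cw (G.D j a) v ∈ U :=
    fun j hj a ha v hv => G.cw_mem_S _ (G.cw_D_eq_zero ha (Or.inr hj)) hv
  have stM : ∀ j, j ∉ I → j ≠ x → ∀ a, Finsupp.degree a = G.deg j → ∀ v ∈ M,
      cw (G.D j a) v ∈ M := by
    intro j hj hjx a ha v hv
    obtain ⟨s, hs, μ, rfl⟩ := memM v hv
    rw [cw_add, cw_smul, G.cw_ne j a ha x (Ne.symm hjx), smul_zero, add_zero]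
    exact M.add_mem (hUM (stU j hj a ha s hs)) (M.smul_mem _ hfM)
  have stM' : ∀ b, Finsupp.degree b = d → ∀ s ∈ U, ∀ μ : Ω,
      cw (G.D x b) (s + μ • G.f x) - μ • monomial b 1 ∈ M := by
    intro b hb s hs μ
    rw [cw_add, cw_smul, G.cw_self x b (hb.trans hxd.symm), ← add_assoc, add_sub_cancel_right]
    exact M.add_mem (hUM (stU x hxI b (hb.trans hxd.symm) s hs)) (M.smul_mem _ hfM)
  -- vectors of `M` that do not depend on the new form
  have B0 : ∀ v ∈ M, (∀ b, Finsupp.degree b = d → cw (G.D x b) v = 0) → v ∈ U := by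
    intro v hv hv0
    obtain ⟨s, hs, μ, rfl⟩ := memM v hv
    by_cases hμ : μ = 0
    · rwa [hμ, zero_smul, add_zero]
    · exfalso
      obtain ⟨b, hb, hbM⟩ := exM M hVM0
      apply hbM
      have h1 := stM' b hb s hs μ
      rw [hv0 b hb, zero_sub] at h1
      have h2 := M.smul_mem (-μ⁻¹) h1
      rwa [smul_neg, neg_smul, neg_neg, smul_smul, inv_mul_cancel₀ hμ, one_smul] at h2
  -- the key property
  let P : MvPolynomial (Fin n) Ω → Prop := fun u => ∀ i ∈ I,
    (G.deg i = d → ∃ lam : Ω, ∀ b, Finsupp.degree b = d →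
      cw (G.D i b) u - lam • monomial b 1 ∈ U) ∧
    (G.deg i ≠ d → ∀ b, Finsupp.degree b = G.deg i → cw (G.D i b) u ∈ U)
  have hP0 : ∀ u ∈ U, (∀ j, j ∉ I → ∀ a, Finsupp.degree a = G.deg j → cw (G.D j a) u = 0) →
      P u := by
    intro u hu hor
    -- moving the coefficients of `f i` in the direction of a new form
    have hΔ : ∀ i ∈ I, ∀ y ∈ I', G.deg y = G.deg i →
        (∑ m ∈ (G.f y).support, MvPolynomial.coeff m (G.f y) • cw (G.D i m) u) ∈ M := by
      intro i hi y hy hyi
      have hmd : ∀ m ∈ (G.f y).support, Finsupp.degree m = G.deg i := fun m hm =>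
        (deg_of_mem (G.hom y) (MvPolynomial.mem_support_iff.1 hm)).trans hyi
      let δ : Derivation ℤ Ω Ω :=
        ∑ m ∈ (G.f y).support, MvPolynomial.coeff m (G.f y) • G.D i m
      have hδ : ∀ p : MvPolynomial (Fin n) Ω, cw δ p =
          ∑ m ∈ (G.f y).support, MvPolynomial.coeff m (G.f y) • cw (G.D i m) p :=
        fun p => cw_sum_der _ _ _ p
      rw [← hδ]
      apply hle
      refine (G.mem_S _ _ _).2 ⟨cw_hom δ hu.1, fun w hw => ?_⟩
      have h1 : cw δ (u * monomial w 1) ∈ G.W I' (2 * d) := by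
        refine G.cw_mem_of (G.W_mono hII' _) δ (fun k hk a ha => ?_) (hu.2 w hw)
        rw [hδ]
        by_cases hki : k = i
        · subst hki
          have h2 : ∑ m ∈ (G.f y).support, MvPolynomial.coeff m (G.f y) •
              cw (G.D k m) (G.f k) = G.f y := by
            conv_rhs => rw [← (G.f y).support_sum_monomial_coeff]
            refine Finset.sum_congr rfl fun m hm => ?_
            rw [G.cw_self k m (hmd m hm), smul_monomial, smul_eq_mul, mul_one]
          rw [h2]
          exact G.mul_mem_W hy (mono_hom rfl 1) (by omega)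
        · have h2 : ∑ m ∈ (G.f y).support, MvPolynomial.coeff m (G.f y) •
              cw (G.D i m) (G.f k) = 0 := by
            refine Finset.sum_eq_zero fun m hm => ?_
            rw [G.cw_ne i m (hmd m hm) k hki, smul_zero]
          rw [h2, mul_zero]
          exact Submodule.zero_mem _
      rwa [cw_mul, cw_monomial_one, mul_zero, add_zero] at h1
    -- the derivative of the last sum
    have hder : ∀ i ∈ I, ∀ y, y ∉ I → G.deg y = G.deg i → ∀ b, Finsupp.degree b = G.deg i →
        cw (G.D y b) (∑ m ∈ (G.f y).support, MvPolynomial.coeff m (G.f y) • cw (G.D i m) u) =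
          cw (G.D i b) u := by
      intro i hi y hy hyi b hb
      have h0 : ∀ m, G.D y b (MvPolynomial.coeff m (G.f y)) = if b = m then 1 else 0 := by
        intro m
        rw [← coeff_cw', G.cw_self y b (hb.trans hyi.symm), MvPolynomial.coeff_monomial]
      have hbs : b ∈ (G.f y).support := by
        rw [MvPolynomial.mem_support_iff]
        intro h
        have h1 := h0 b
        rw [h, map_zero, if_pos rfl] at h1
        exact zero_ne_one h1
      rw [cw_sum, Finset.sum_eq_single b]
      · rw [cw_smul, h0 b, if_pos rfl, one_smul, cw_comm (fun c => G.comm y b i b c),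
          hor y hy b (hb.trans hyi.symm), cw_zero, smul_zero, add_zero]
      · intro m _ hmb
        rw [cw_smul, h0 m, if_neg (Ne.symm hmb), zero_smul,
          cw_comm (fun c => G.comm y b i m c), hor y hy b (hb.trans hyi.symm), cw_zero,
          smul_zero, add_zero]
      · intro h
        exact absurd hbs h
    intro i hi
    refine ⟨fun hid => ?_, fun hid b hb => ?_⟩
    · -- the degree `d`
      obtain ⟨s, hs, lam, hsl⟩ := memM _ (hΔ i hi x hxI' (hxd.trans hid.symm))
      refine ⟨lam, fun b hb => ?_⟩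
      have key : ∀ b, Finsupp.degree b = d → cw (G.D i b) u - lam • monomial b 1 ∈ M := by
        intro b hb
        have h1 := stM' b hb s hs lam
        rwa [← hsl, hder i hi x hxI (hxd.trans hid.symm) b (hb.trans hid.symm)] at h1
      obtain ⟨t, ht, μ, htμ⟩ := memM _ (key b hb)
      by_cases hμ : μ = 0
      · rw [htμ, hμ, zero_smul, add_zero]
        exact ht
      · exfalso
        obtain ⟨b', hb', hbM⟩ := exM _ (hVM (monomial b 1))
        apply hbM
        have h1 := stM' b' hb' t ht μ
        rw [← htμ, cw_sub, cw_comm (fun c => G.comm x b' i b c),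
          hor x hxI b' (hb'.trans hxd.symm), cw_zero, cw_smul, cw_monomial_one, smul_zero,
          add_zero, zero_sub] at h1
        have h2 : μ • monomial b' (1 : Ω) ∈ M ⊔ Submodule.span Ω {monomial b 1} := by
          have h3 : (G.D x b') lam • monomial b (1 : Ω) ∈
              M ⊔ Submodule.span Ω {monomial b 1} :=
            Submodule.smul_mem _ _ (le_sup_right (a := M) (Submodule.mem_span_singleton_self _))
          have h4 := Submodule.neg_mem _ (Submodule.add_mem _ (le_sup_left (a := M)
            (b := Submodule.span Ω {monomial b (1 : Ω)}) h1) h3)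
          have h5 : -(-((G.D x b') lam • monomial b (1 : Ω)) - μ • monomial b' (1 : Ω) +
              (G.D x b') lam • monomial b (1 : Ω)) = μ • monomial b' (1 : Ω) := by abel
          rwa [h5] at h4
        have h3 := Submodule.smul_mem _ μ⁻¹ h2
        rwa [smul_smul, inv_mul_cancel₀ hμ, one_smul] at h3
    · -- the other degrees
      by_cases h2d : 2 * d < G.deg i
      · exact stU' i h2d b hb u hu
      · obtain ⟨hyd, hyI', hyI⟩ := hcyc (G.deg i) (hI i hi) (by omega)
        have hyx : cyc (G.deg i) ≠ x := by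
          intro h
          rw [h, hxd] at hyd
          exact hid hyd.symm
        have h1 := hΔ i hi _ hyI' hyd
        have h2 := stM _ hyI hyx b (hb.trans hyd.symm) _ h1
        rw [hder i hi _ hyI hyd b hb] at h2
        refine B0 _ h2 fun b' hb' => ?_
        rw [cw_comm (fun c => G.comm x b' i b c), hor x hxI b' (hb'.trans hxd.symm), cw_zero]
  have hP : ∀ u ∈ U, P u := by
    intro u hu
    have h1 := span_const {δ | ∃ j, j ∉ I ∧ ∃ a, Finsupp.degree a = G.deg j ∧ δ = G.D j a} U (by
      rintro _ ⟨j, hj, a, ha, rfl⟩ v hv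
      exact stU j hj a ha v hv) u hu
    have h2 : u ∈ U ∧ P u := by
      clear hu
      induction h1 using Submodule.span_induction with
      | mem w hw =>
        exact ⟨hw.1, hP0 w hw.1 fun j hj a ha => hw.2 _ ⟨j, hj, a, ha, rfl⟩⟩
      | zero =>
        refine ⟨U.zero_mem, fun i hi => ⟨fun _ => ⟨0, fun b _ => ?_⟩, fun _ b _ => ?_⟩⟩
        · rw [cw_zero, zero_smul, sub_zero]; exact U.zero_mem
        · rw [cw_zero]; exact U.zero_mem
      | add v w _ _ hv hw =>
        refine ⟨U.add_mem hv.1 hw.1, fun i hi => ⟨fun hid => ?_, fun hid b hb => ?_⟩⟩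
        · obtain ⟨l1, h1⟩ := (hv.2 i hi).1 hid
          obtain ⟨l2, h2⟩ := (hw.2 i hi).1 hid
          refine ⟨l1 + l2, fun b hb => ?_⟩
          have h3 := U.add_mem (h1 b hb) (h2 b hb)
          have h4 : cw (G.D i b) (v + w) - (l1 + l2) • monomial b (1 : Ω) =
              cw (G.D i b) v - l1 • monomial b (1 : Ω) +
                (cw (G.D i b) w - l2 • monomial b (1 : Ω)) := by
            rw [cw_add, add_smul]; abel
          rwa [h4]
        · rw [cw_add]
          exact U.add_mem ((hv.2 i hi).2 hid b hb) ((hw.2 i hi).2 hid b hb)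
      | smul c v _ hv =>
        refine ⟨U.smul_mem _ hv.1, fun i hi => ⟨fun hid => ?_, fun hid b hb => ?_⟩⟩
        · obtain ⟨l1, h1⟩ := (hv.2 i hi).1 hid
          refine ⟨c * l1, fun b hb => ?_⟩
          have h3 := U.add_mem (U.smul_mem ((G.D i b) c) hv.1) (U.smul_mem c (h1 b hb))
          have h4 : cw (G.D i b) (c • v) - (c * l1) • monomial b (1 : Ω) =
              (G.D i b) c • v + c • (cw (G.D i b) v - l1 • monomial b (1 : Ω)) := by
            rw [cw_smul, smul_sub, smul_smul]; abel
          rwa [h4]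
        · rw [cw_smul]
          exact U.add_mem (U.smul_mem _ hv.1) (U.smul_mem _ ((hv.2 i hi).2 hid b hb))
    exact h2.2
  -- the stable subspace
  let Sg : Submodule Ω (MvPolynomial (Fin n) Ω) :=
    { carrier := {w | w ∈ U ∧ ∀ i a, Finsupp.degree a = G.deg i → cw (G.D i a) w ∈ U}
      add_mem' := by
        rintro v w ⟨hv, hv2⟩ ⟨hw, hw2⟩
        exact ⟨U.add_mem hv hw, fun i a ha => by
          rw [cw_add]; exact U.add_mem (hv2 i a ha) (hw2 i a ha)⟩
      zero_mem' := ⟨U.zero_mem, fun i a _ => by rw [cw_zero]; exact U.zero_mem⟩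
      smul_mem' := by
        rintro c w ⟨hw, hw2⟩
        exact ⟨U.smul_mem _ hw, fun i a ha => by
          rw [cw_smul]; exact U.add_mem (U.smul_mem _ hw) (U.smul_mem _ (hw2 i a ha))⟩ }
  have memSg : ∀ w, w ∈ Sg ↔ w ∈ U ∧ ∀ i a, Finsupp.degree a = G.deg i → cw (G.D i a) w ∈ U :=
    fun w => Iff.rfl
  have stSg : ∀ j b', Finsupp.degree b' = G.deg j → ∀ w ∈ Sg, cw (G.D j b') w ∈ Sg := by
    intro j b' hb' w hw
    rw [memSg] at hw ⊢
    refine ⟨hw.2 j b' hb', fun i b hb => ?_⟩
    have hv := hw.2 j b' hb'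
    have hv' := hw.2 i b hb
    have hcm : cw (G.D i b) (cw (G.D j b') w) = cw (G.D j b') (cw (G.D i b) w) :=
      cw_comm (fun c => G.comm i b j b' c) w
    by_cases hiI : i ∈ I
    · by_cases hid : G.deg i = d
      · by_cases hjI : j ∈ I
        · by_cases hjd : G.deg j = d
          · obtain ⟨lam, hlam⟩ := (hP _ hv i hiI).1 hid
            have h0 : lam = 0 := by
              by_contra hne
              obtain ⟨m, hm, hmM⟩ := exM (U ⊔ Submodule.span Ω {monomial b' 1}) (by
                intro h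
                apply h3 (monomial b' 1) 0
                refine h.trans (sup_le_sup le_rfl ?_)
                exact Submodule.span_mono (by simp))
              apply hmM
              have h1 := hlam m hm
              obtain ⟨lam', hlam'⟩ := (hP _ (hw.2 i m (hm.trans hid.symm)) j hjI).1 hjd
              have h2 := hlam' b' (hb'.trans hjd)
              rw [cw_comm (fun c => G.comm j b' i m c)] at h2
              have h4 := U.sub_mem h2 h1
              have h5 : cw (G.D i m) (cw (G.D j b') w) - lam' • monomial b' (1 : Ω) -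
                  (cw (G.D i m) (cw (G.D j b') w) - lam • monomial m (1 : Ω)) =
                  lam • monomial m (1 : Ω) - lam' • monomial b' (1 : Ω) := by abel
              rw [h5] at h4
              have h6 : lam • monomial m (1 : Ω) ∈ U ⊔ Submodule.span Ω {monomial b' 1} := by
                have h7 := Submodule.add_mem _ (le_sup_left (a := U)
                  (b := Submodule.span Ω {monomial b' (1 : Ω)}) h4)
                  (Submodule.smul_mem _ lam' (le_sup_right (a := U)
                    (Submodule.mem_span_singleton_self (monomial b' (1 : Ω)))))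
                rwa [sub_add_cancel] at h7
              have h7 := Submodule.smul_mem _ lam⁻¹ h6
              rwa [smul_smul, inv_mul_cancel₀ hne, one_smul] at h7
            have h1 := hlam b (hb.trans hid)
            rwa [h0, zero_smul, sub_zero] at h1
          · rw [hcm]
            exact (hP _ hv' j hjI).2 hjd b' hb'
        · rw [hcm]
          exact stU j hjI b' hb' _ hv'
      · exact (hP _ hv i hiI).2 hid b hb
    · exact stU i hiI b hb _ hv
  -- a nonzero element
  obtain ⟨u, huU, hu0⟩ := hu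
  have hlam : ∀ i, ∃ lam : Ω, (i ∈ I ∧ G.deg i = d) →
      ∀ b, Finsupp.degree b = d → cw (G.D i b) u - lam • monomial b 1 ∈ U := by
    intro i
    by_cases h : i ∈ I ∧ G.deg i = d
    · obtain ⟨lam, hl⟩ := (hP u huU i h.1).1 h.2
      exact ⟨lam, fun _ => hl⟩
    · exact ⟨0, fun h' => absurd h' h⟩
  choose lam hlam using hlam
  set J := I.filter fun i => G.deg i = d with hJ
  set v := u - ∑ i ∈ J, lam i • G.f i with hv
  have hfU : ∀ i ∈ J, G.f i ∈ U := fun i hi =>
    G.f_mem_S (Finset.mem_filter.1 hi).1 (Finset.mem_filter.1 hi).2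
  have hv0 : v ≠ 0 := by
    intro h
    apply hu0
    rw [hv, sub_eq_zero] at h
    rw [h]
    exact Submodule.sum_mem _ fun i hi => Submodule.smul_mem _ _
      (Submodule.subset_span ⟨i, (Finset.mem_filter.1 hi).1, (Finset.mem_filter.1 hi).2, rfl⟩)
  have hvSg : v ∈ Sg := by
    rw [memSg]
    refine ⟨U.sub_mem huU (U.sum_mem fun i hi => U.smul_mem _ (hfU i hi)), fun j a ha => ?_⟩
    have h1 : cw (G.D j a) v = cw (G.D j a) u - ∑ i ∈ J, lam i • cw (G.D j a) (G.f i) -
        ∑ i ∈ J, (G.D j a) (lam i) • G.f i := by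
      rw [hv, cw_sub, cw_sum, sub_sub, ← Finset.sum_add_distrib]
      congr 1
      refine Finset.sum_congr rfl fun i _ => ?_
      rw [cw_smul, add_comm]
    rw [h1]
    refine U.sub_mem ?_ (U.sum_mem fun i hi => U.smul_mem _ (hfU i hi))
    by_cases hj : j ∈ J
    · have hj' := Finset.mem_filter.1 hj
      rw [Finset.sum_eq_single j]
      · rw [G.cw_self j a ha]
        exact hlam j ⟨hj'.1, hj'.2⟩ a (ha.trans hj'.2)
      · intro i _ hij
        rw [G.cw_ne j a ha i hij, smul_zero]
      · intro h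
        exact absurd hj h
    · rw [Finset.sum_eq_zero, sub_zero]
      · by_cases hjI : j ∈ I
        · have hjd : G.deg j ≠ d := fun h => hj (Finset.mem_filter.2 ⟨hjI, h⟩)
          exact (hP u huU j hjI).2 hjd a ha
        · exact stU j hjI a ha u huU
      · intro i hi
        rw [G.cw_ne j a ha i (fun h => hj (h ▸ hi)), smul_zero]
  have h1 := span_const {δ | ∃ j a, Finsupp.degree a = G.deg j ∧ δ = G.D j a} Sg (by
    rintro _ ⟨j, a, ha, rfl⟩ w hw
    exact stSg j a ha w hw) v hvSg
  have hex : ∃ w ∈ Sg, G.Cst w ∧ w ≠ 0 := by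
    by_contra hne
    push Not at hne
    apply hv0
    have h2 : Submodule.span Ω {w | w ∈ Sg ∧ ∀ δ ∈ {δ : Derivation ℤ Ω Ω |
        ∃ j a, Finsupp.degree a = G.deg j ∧ δ = G.D j a}, cw δ w = 0} = ⊥ := by
      rw [Submodule.span_eq_bot]
      rintro w ⟨hw, hw2⟩
      exact hne w hw fun i a ha => hw2 _ ⟨i, a, ha, rfl⟩
    rw [h2] at h1
    exact (Submodule.mem_bot _).1 h1
  obtain ⟨w, hw, hwc, hw0⟩ := hex
  exact hVU (G.S_full_of_cst ((memSg w).1 hw).1 hwc hw0)

end GS

end Pool.Agent.N177.FK
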