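import Mathlib

/-!
Generic systems of forms: forms over a field with derivations that separate the coefficients.
-/

set_option autoImplicit false

namespace Pool.Agent.N177.FK

open MvPolynomial

section cw

variable {n : ℕ} {Ω : Type*} [Field Ω]

/-- a derivation acting on the coefficients -/
noncomputable def cw (δ : Derivation ℤ Ω Ω) (p : MvPolynomial (Fin n) Ω) :
    MvPolynomial (Fin n) Ω :=
  AddMonoidAlgebra.ofCoeff (Finsupp.mapRange δ (map_zero δ) (AddMonoidAlgebra.coeff p))

lemma coeff_cw' (δ : Derivation ℤ Ω Ω) (p : MvPolynomial (Fin n) Ω) (a : Fin n →₀ ℕ) :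
    MvPolynomial.coeff a (cw δ p) = δ (MvPolynomial.coeff a p) := rfl

lemma cw_add (δ : Derivation ℤ Ω Ω) (p q : MvPolynomial (Fin n) Ω) :
    cw δ (p + q) = cw δ p + cw δ q := by
  ext a
  simp only [MvPolynomial.coeff_add, coeff_cw', map_add]

lemma cw_zero (δ : Derivation ℤ Ω Ω) : cw δ (0 : MvPolynomial (Fin n) Ω) = 0 := by
  ext a
  simp only [MvPolynomial.coeff_zero, coeff_cw', map_zero]

lemma cw_smul (δ : Derivation ℤ Ω Ω) (c : Ω) (p : MvPolynomial (Fin n) Ω) :
    cw δ (c • p) = δ c • p + c • cw δ p := by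
  ext a
  simp only [MvPolynomial.coeff_add, coeff_cw', MvPolynomial.coeff_smul, smul_eq_mul,
    Derivation.leibniz]
  ring

lemma cw_mul (δ : Derivation ℤ Ω Ω) (p q : MvPolynomial (Fin n) Ω) :
    cw δ (p * q) = cw δ p * q + p * cw δ q := by
  classical
  ext a
  simp only [MvPolynomial.coeff_add, coeff_cw', MvPolynomial.coeff_mul, map_sum,
    Derivation.leibniz, smul_eq_mul, ← Finset.sum_add_distrib]
  refine Finset.sum_congr rfl fun x _ => ?_
  ring

lemma cw_monomial (δ : Derivation ℤ Ω Ω) (a : Fin n →₀ ℕ) (c : Ω) :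
    cw δ (monomial a c) = monomial a (δ c) := by
  classical
  ext b
  simp only [coeff_cw', MvPolynomial.coeff_monomial]
  split_ifs <;> simp

lemma cw_monomial_one (δ : Derivation ℤ Ω Ω) (a : Fin n →₀ ℕ) :
    cw δ (monomial a (1 : Ω)) = 0 := by
  rw [cw_monomial, Derivation.map_one_eq_zero, monomial_zero]

lemma cw_sub (δ : Derivation ℤ Ω Ω) (p q : MvPolynomial (Fin n) Ω) :
    cw δ (p - q) = cw δ p - cw δ q := by
  ext a
  simp only [MvPolynomial.coeff_sub, coeff_cw', map_sub]

lemma cw_sum (δ : Derivation ℤ Ω Ω) {α : Type*} (s : Finset α) (p : α → MvPolynomial (Fin n) Ω) :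
    cw δ (∑ i ∈ s, p i) = ∑ i ∈ s, cw δ (p i) := by
  classical
  induction s using Finset.induction_on with
  | empty => simp [cw_zero]
  | insert i s hi ih => rw [Finset.sum_insert hi, Finset.sum_insert hi, cw_add, ih]

lemma cw_hom (δ : Derivation ℤ Ω Ω) {p : MvPolynomial (Fin n) Ω} {k : ℕ}
    (hp : p ∈ homogeneousSubmodule (Fin n) Ω k) : cw δ p ∈ homogeneousSubmodule (Fin n) Ω k := by
  rw [mem_homogeneousSubmodule] at hp ⊢
  intro a ha
  apply hp
  intro h
  apply ha
  rw [coeff_cw', h, map_zero]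

/-- Subspaces that are stable under derivations are spanned by constant vectors. -/
theorem span_const (𝒟 : Set (Derivation ℤ Ω Ω)) (S : Submodule Ω (MvPolynomial (Fin n) Ω))
    (hS : ∀ δ ∈ 𝒟, ∀ v ∈ S, cw δ v ∈ S) (v : MvPolynomial (Fin n) Ω) (hv : v ∈ S) :
    v ∈ Submodule.span Ω {w | w ∈ S ∧ ∀ δ ∈ 𝒟, cw δ w = 0} := by
  classical
  obtain ⟨N, hN⟩ : ∃ N, v.support.card = N := ⟨_, rfl⟩
  induction N using Nat.strong_induction_on generalizing v with
  | _ N ih =>
  by_cases hv0 : v = 0
  · rw [hv0]; exact Submodule.zero_mem _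
  -- a nonzero vector of minimal support
  have hex : ∃ k, ∃ w ∈ S, w ≠ 0 ∧ w.support ⊆ v.support ∧ w.support.card = k :=
    ⟨_, v, hv, hv0, subset_rfl, rfl⟩
  obtain ⟨w, hwS, hw0, hwv, hwk⟩ := Nat.find_spec hex
  have hmin := fun k (hk : k < Nat.find hex) => Nat.find_min hex hk
  obtain ⟨a, ha⟩ := (MvPolynomial.support_nonempty (p := w)).2 hw0
  have hwa : MvPolynomial.coeff a w ≠ 0 := by rwa [mem_support_iff] at ha
  set w' := (MvPolynomial.coeff a w)⁻¹ • w with hw'
  have hw'S : w' ∈ S := S.smul_mem _ hwS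
  have hw'a : MvPolynomial.coeff a w' = 1 := by
    rw [hw', MvPolynomial.coeff_smul, smul_eq_mul, inv_mul_cancel₀ hwa]
  have hw'supp : w'.support ⊆ w.support := by
    intro b hb
    rw [mem_support_iff] at hb ⊢
    intro h
    apply hb
    rw [hw', MvPolynomial.coeff_smul, h, smul_zero]
  have hconst : ∀ δ ∈ 𝒟, cw δ w' = 0 := by
    intro δ hδ
    by_contra hne
    have h1 : (cw δ w').support ⊆ w.support.erase a := by
      intro b hb
      rw [mem_support_iff, coeff_cw'] at hb
      rw [Finset.mem_erase]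
      refine ⟨?_, ?_⟩
      · rintro rfl
        apply hb
        rw [hw'a, Derivation.map_one_eq_zero]
      · apply hw'supp
        rw [mem_support_iff]
        intro h
        exact hb (by rw [h, map_zero])
    have h2 : (cw δ w').support.card < Nat.find hex := by
      rw [← hwk]
      exact (Finset.card_le_card h1).trans_lt (Finset.card_erase_lt_of_mem ha)
    exact hmin _ h2 ⟨_, hS δ hδ _ hw'S, hne,
      (h1.trans (Finset.erase_subset _ _)).trans hwv, rfl⟩
  have hw'T : w' ∈ Submodule.span Ω {w | w ∈ S ∧ ∀ δ ∈ 𝒟, cw δ w = 0} :=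
    Submodule.subset_span ⟨hw'S, hconst⟩
  have h3 : v - MvPolynomial.coeff a v • w' ∈ S := S.sub_mem hv (S.smul_mem _ hw'S)
  have h4 : (v - MvPolynomial.coeff a v • w').support ⊆ v.support.erase a := by
    intro b hb
    rw [mem_support_iff, MvPolynomial.coeff_sub, MvPolynomial.coeff_smul, smul_eq_mul] at hb
    rw [Finset.mem_erase]
    refine ⟨?_, ?_⟩
    · rintro rfl
      apply hb
      rw [hw'a, mul_one, sub_self]
    · by_contra hbv
      apply hb
      have h5 : MvPolynomial.coeff b v = 0 := by simpa using hbv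
      have h6 : MvPolynomial.coeff b w' = 0 := by
        by_contra h7
        exact hbv (hwv (hw'supp (mem_support_iff.2 h7)))
      rw [h5, h6, mul_zero, sub_zero]
  have h5 := ih _ (by
    rw [← hN]
    exact (Finset.card_le_card h4).trans_lt (Finset.card_erase_lt_of_mem (hwv ha))) _ h3 rfl
  have h6 := Submodule.add_mem _ h5 (Submodule.smul_mem _ (MvPolynomial.coeff a v) hw'T)
  rwa [sub_add_cancel] at h6

end cw

end Pool.Agent.N177.FK
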