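import Pool.Agent.N177.FK.Chain

/-!
The generic system of forms over the field of rational functions of the coefficients.
-/

set_option autoImplicit false

namespace Pool.Agent.N177.FK

open MvPolynomial Module
open Pool.Agent.TH206.Fro (Mon card_Mon Io Dg KK)

section Ext

variable {P : Type} [CommRing P] [IsDomain P] {F : Type} [Field F] [Algebra P F]
  [IsFractionRing P F]

/-- The Leibniz rule for an additive map to the fraction field. -/
def IsDer (d : P →+ F) : Prop :=
  ∀ x y, d (x * y) = algebraMap P F x * d y + algebraMap P F y * d x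

omit [IsDomain P] [IsFractionRing P F] in
lemma IsDer.one {d : P →+ F} (hd : IsDer d) : d 1 = 0 := by
  have h := hd 1 1
  rw [mul_one, (algebraMap P F).map_one, one_mul] at h
  exact left_eq_add.mp h

/-- The ring homomorphism to the trivial square zero extension attached to a derivation. -/
noncomputable def toTSZ (d : P →+ F) (hd : IsDer d) : P →+* TrivSqZeroExt F F where
  toFun p := TrivSqZeroExt.inl (algebraMap P F p) + TrivSqZeroExt.inr (d p)
  map_one' := by
    ext <;> simp [hd.one]
  map_zero' := by
    ext <;> simp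
  map_add' x y := by
    ext <;> simp
  map_mul' x y := by
    ext
    · simp
    · simp only [TrivSqZeroExt.snd_add, TrivSqZeroExt.snd_mul, TrivSqZeroExt.snd_inl,
        TrivSqZeroExt.snd_inr, TrivSqZeroExt.fst_add, TrivSqZeroExt.fst_inl,
        TrivSqZeroExt.fst_inr, hd x y,
        zero_add, add_zero, MulOpposite.smul_eq_mul_unop, MulOpposite.unop_op, smul_eq_mul]
      ring

lemma toTSZ_unit (d : P →+ F) (hd : IsDer d) (y : nonZeroDivisors P) :
    IsUnit (toTSZ d hd (y : P)) := by
  rw [TrivSqZeroExt.isUnit_iff_isUnit_fst]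
  have hy : (y : P) ≠ 0 := nonZeroDivisors.ne_zero y.2
  simp [toTSZ, hy]

/-- Lift to the fraction field. -/
noncomputable def liftTSZ (d : P →+ F) (hd : IsDer d) : F →+* TrivSqZeroExt F F :=
  IsLocalization.lift (M := nonZeroDivisors P) (toTSZ_unit d hd)

lemma liftTSZ_fst (d : P →+ F) (hd : IsDer d) (x : F) : (liftTSZ d hd x).fst = x := by
  have h : (TrivSqZeroExt.fstHom ℤ F F).toRingHom.comp (liftTSZ d hd) = RingHom.id F := by
    apply IsLocalization.ringHom_ext (M := nonZeroDivisors P)
    ext p
    simp [liftTSZ, toTSZ]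
  exact RingHom.congr_fun h x

/-- Extension of a derivation to the fraction field. -/
noncomputable def extDer (d : P →+ F) (hd : IsDer d) : Derivation ℤ F F where
  toFun x := (liftTSZ d hd x).snd
  map_add' x y := by simp
  map_smul' n x := by simp
  map_one_eq_zero' := by simp
  leibniz' x y := by
    simp [liftTSZ_fst]
    ring

lemma extDer_algebraMap (d : P →+ F) (hd : IsDer d) (p : P) :
    extDer d hd (algebraMap P F p) = d p := by
  simp [extDer, liftTSZ, toTSZ]

/-- A derivation of the fraction field that vanishes on the ring is zero. -/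
lemma der_zero (δ : Derivation ℤ F F) (h : ∀ p : P, δ (algebraMap P F p) = 0) (x : F) :
    δ x = 0 := by
  obtain ⟨p, q, hq, rfl⟩ := IsFractionRing.div_surjective (A := P) x
  have hq0 : algebraMap P F q ≠ 0 := by
    intro h0
    have h1 := IsFractionRing.injective P F (h0.trans (map_zero (algebraMap P F)).symm)
    rw [h1] at hq
    exact (zero_notMem_nonZeroDivisors (M₀ := P)) hq
  have h1 : algebraMap P F p = (algebraMap P F p / algebraMap P F q) * algebraMap P F q := by
    rw [div_mul_cancel₀ _ hq0]
  have h2 := congrArg δ h1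
  rw [Derivation.leibniz, h p, h q, smul_zero, zero_add, smul_eq_mul] at h2
  exact (mul_eq_zero.1 h2.symm).resolve_left hq0

end Ext

lemma pderiv_comm' {σ : Type*} {R : Type*} [CommRing R] (s t : σ) (p : MvPolynomial σ R) :
    pderiv s (pderiv t p) = pderiv t (pderiv s p) := by
  classical
  have h : ⁅(pderiv s : Derivation R (MvPolynomial σ R) (MvPolynomial σ R)),
      (pderiv t : Derivation R (MvPolynomial σ R) (MvPolynomial σ R))⁆ = 0 := by
    apply MvPolynomial.derivation_ext
    intro i
    rw [Derivation.commutator_apply, pderiv_X, pderiv_X, Derivation.zero_apply]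
    simp only [Pi.single_apply]
    split_ifs <;> simp
  have h1 := congrArg (fun δ : Derivation R (MvPolynomial σ R) (MvPolynomial σ R) => δ p) h
  simp only [Derivation.commutator_apply, Derivation.zero_apply] at h1
  exact sub_eq_zero.1 h1

variable {n : ℕ} (deg : ℕ → ℕ) (K : Type) [Field K] (F : Type) [Field F]
  [Algebra (MvPolynomial (Io n deg) K) F] [IsFractionRing (MvPolynomial (Io n deg) K) F]

/-- the derivative with respect to a coefficient -/
noncomputable def d0 (s : Io n deg) : MvPolynomial (Io n deg) K →+ F :=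
  (algebraMap (MvPolynomial (Io n deg) K) F).toAddMonoidHom.comp
    (pderiv s : Derivation K (MvPolynomial (Io n deg) K) (MvPolynomial (Io n deg) K)).toLinearMap.toAddMonoidHom

omit [IsFractionRing (MvPolynomial (Io n deg) K) F] in
lemma d0_apply (s : Io n deg) (p : MvPolynomial (Io n deg) K) :
    d0 deg K F s p = algebraMap _ F (pderiv s p) := rfl

omit [IsFractionRing (MvPolynomial (Io n deg) K) F] in
lemma d0_der (s : Io n deg) : IsDer (d0 deg K F s) := by
  intro x y
  rw [d0_apply, d0_apply, d0_apply, pderiv_mul, map_add, map_mul, map_mul]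
  ring

/-- the derivation of the field -/
noncomputable def dd (s : Io n deg) : Derivation ℤ F F := extDer (d0 deg K F s) (d0_der deg K F s)

lemma dd_apply (s : Io n deg) (p : MvPolynomial (Io n deg) K) :
    dd deg K F s (algebraMap _ F p) = algebraMap _ F (pderiv s p) :=
  extDer_algebraMap _ _ _

lemma extDer_comm (s t : Io n deg) (x : F) :
    dd deg K F s (dd deg K F t x) = dd deg K F t (dd deg K F s x) := by
  have h := der_zero (P := MvPolynomial (Io n deg) K)
    ⁅dd deg K F s, dd deg K F t⁆ (by
      intro p
      rw [Derivation.commutator_apply, dd_apply, dd_apply, dd_apply, dd_apply, pderiv_comm',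
        sub_self]) x
  rw [Derivation.commutator_apply] at h
  exact sub_eq_zero.1 h

open Classical in
/-- the derivations -/
noncomputable def DD (i : ℕ) (a : Fin n →₀ ℕ) : Derivation ℤ F F :=
  if h : Finsupp.degree a = deg i then dd deg K F ⟨i, ⟨a, h⟩⟩ else 0

/-- the generic forms -/
noncomputable def ff (i : ℕ) : MvPolynomial (Fin n) F :=
  ∑ m : Dg n (deg i), monomial m.1 (algebraMap (MvPolynomial (Io n deg) K) F (X ⟨i, m⟩))

omit [IsFractionRing (MvPolynomial (Io n deg) K) F] in
lemma coeff_ff (i : ℕ) (m : Dg n (deg i)) : MvPolynomial.coeff m.1 (ff deg K F i) =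
    algebraMap (MvPolynomial (Io n deg) K) F (X ⟨i, m⟩) := by
  classical
  unfold ff
  rw [MvPolynomial.coeff_sum, Finset.sum_eq_single m]
  · rw [MvPolynomial.coeff_monomial, if_pos rfl]
  · intro b _ hb
    rw [MvPolynomial.coeff_monomial, if_neg fun h => hb (Subtype.ext h)]
  · intro h
    exact absurd (Finset.mem_univ _) h

lemma cw_ff (s : Io n deg) (j : ℕ) : cw (dd deg K F s) (ff deg K F j) =
    if j = s.1 then monomial s.2.1 1 else 0 := by
  classical
  unfold ff
  rw [cw_sum]
  have h1 : ∀ m : Dg n (deg j), cw (dd deg K F s) (monomial m.1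
      (algebraMap (MvPolynomial (Io n deg) K) F (X ⟨j, m⟩))) =
      if (⟨j, m⟩ : Io n deg) = s then monomial m.1 1 else 0 := by
    intro m
    rw [cw_monomial, dd_apply, pderiv_X]
    by_cases h : (⟨j, m⟩ : Io n deg) = s
    · rw [if_pos h, h, Pi.single_eq_same, map_one]
    · rw [if_neg h, Pi.single_eq_of_ne h, map_zero, monomial_zero]
  rw [Finset.sum_congr rfl fun m _ => h1 m]
  obtain ⟨i, a⟩ := s
  by_cases hj : j = i
  · subst hj
    rw [if_pos rfl, Finset.sum_eq_single a]
    · rw [if_pos rfl]
    · intro m _ hm
      rw [if_neg]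
      intro h
      exact hm (eq_of_heq (Sigma.mk.inj_iff.1 h).2)
    · intro h
      exact absurd (Finset.mem_univ _) h
  · rw [if_neg hj]
    refine Finset.sum_eq_zero fun m _ => ?_
    rw [if_neg]
    intro h
    exact hj (Sigma.mk.inj_iff.1 h).1

/-- The generic system. -/
noncomputable def gen : GS n F ℕ where
  deg := deg
  f := ff deg K F
  hom i := by
    unfold ff
    exact Submodule.sum_mem _ fun m _ => mono_hom m.2 _
  D := DD deg K F
  cw_self i a ha := by
    unfold DD
    rw [dif_pos ha, cw_ff, if_pos rfl]
  cw_ne i a ha j hj := by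
    unfold DD
    rw [dif_pos ha, cw_ff, if_neg hj]
  comm i a j b c := by
    unfold DD
    by_cases h1 : Finsupp.degree a = deg i
    · by_cases h2 : Finsupp.degree b = deg j
      · rw [dif_pos h1, dif_pos h2, extDer_comm]
      · rw [dif_neg h2]
        simp
    · rw [dif_neg h1]
      simp

end Pool.Agent.N177.FK
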