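import Pool.Agent.N177.FK.Gs

/-!
Generic systems of forms: the spaces `W` and `S`.
-/

set_option autoImplicit false

namespace Pool.Agent.N177.FK

open MvPolynomial

/-- Forms over a field with derivations of the field that separate the coefficients. -/
structure GS (n : ℕ) (Ω : Type*) [Field Ω] (ι : Type*) where
  deg : ι → ℕ
  f : ι → MvPolynomial (Fin n) Ω
  hom : ∀ i, f i ∈ homogeneousSubmodule (Fin n) Ω (deg i)
  D : ι → (Fin n →₀ ℕ) → Derivation ℤ Ω Ω
  cw_self : ∀ i a, Finsupp.degree a = deg i → cw (D i a) (f i) = monomial a 1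
  cw_ne : ∀ i a, Finsupp.degree a = deg i → ∀ j, j ≠ i → cw (D i a) (f j) = 0
  comm : ∀ i a j b c, D i a (D j b c) = D j b (D i a c)

variable {n : ℕ} {Ω : Type*} [Field Ω]

lemma mono_hom {a : Fin n →₀ ℕ} {k : ℕ} (h : Finsupp.degree a = k) (c : Ω) :
    monomial a c ∈ homogeneousSubmodule (Fin n) Ω k := by
  rw [mem_homogeneousSubmodule]
  exact isHomogeneous_monomial _ h

lemma deg_of_mem {p : MvPolynomial (Fin n) Ω} {k : ℕ}
    (hp : p ∈ homogeneousSubmodule (Fin n) Ω k) {a : Fin n →₀ ℕ}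
    (ha : MvPolynomial.coeff a p ≠ 0) : Finsupp.degree a = k := by
  rw [mem_homogeneousSubmodule] at hp
  by_contra h
  exact ha (hp.coeff_eq_zero h)

/-- a form is a combination of monomials -/
lemma hom_induct {k : ℕ} (M : Submodule Ω (MvPolynomial (Fin n) Ω))
    (L : MvPolynomial (Fin n) Ω →ₗ[Ω] MvPolynomial (Fin n) Ω)
    (h : ∀ a : Fin n →₀ ℕ, Finsupp.degree a = k → L (monomial a 1) ∈ M)
    {g : MvPolynomial (Fin n) Ω} (hg : g ∈ homogeneousSubmodule (Fin n) Ω k) : L g ∈ M := by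
  rw [← g.support_sum_monomial_coeff, map_sum]
  refine M.sum_mem fun a ha => ?_
  have h1 : monomial a (MvPolynomial.coeff a g) =
      MvPolynomial.coeff a g • (monomial a (1 : Ω)) := by
    rw [smul_monomial, smul_eq_mul, mul_one]
  rw [h1, map_smul]
  exact M.smul_mem _ (h a (deg_of_mem hg (MvPolynomial.mem_support_iff.1 ha)))

namespace GS

variable {ι : Type*} (G : GS n Ω ι)

/-- the multiples of degree `m` of the forms in `I` -/
noncomputable def W (I : Finset ι) (m : ℕ) : Submodule Ω (MvPolynomial (Fin n) Ω) :=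
  Submodule.span Ω {p | ∃ i ∈ I, ∃ a : Fin n →₀ ℕ, Finsupp.degree a + G.deg i = m ∧
    p = monomial a 1 * G.f i}

lemma mul_mem_W {I : Finset ι} {m c : ℕ} {i : ι} (hi : i ∈ I) {g : MvPolynomial (Fin n) Ω}
    (hg : g ∈ homogeneousSubmodule (Fin n) Ω c) (hc : c + G.deg i = m) :
    g * G.f i ∈ G.W I m := by
  have h1 := hom_induct (k := c) (G.W I m) (LinearMap.mulRight Ω (G.f i)) (by
    intro a ha
    rw [LinearMap.mulRight_apply]
    exact Submodule.subset_span ⟨i, hi, a, by omega, rfl⟩) hg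
  rwa [LinearMap.mulRight_apply] at h1

lemma W_le (I : Finset ι) (m : ℕ) : G.W I m ≤ homogeneousSubmodule (Fin n) Ω m := by
  refine Submodule.span_le.2 ?_
  rintro _ ⟨i, _, a, ha, rfl⟩
  have h1 := (mem_homogeneousSubmodule _ _).1 (mono_hom (n := n) (rfl : Finsupp.degree a = _) (1 : Ω))
  have h2 := (mem_homogeneousSubmodule _ _).1 (G.hom i)
  have h3 := h1.mul h2
  rw [ha] at h3
  exact h3

lemma W_mono {I J : Finset ι} (h : I ⊆ J) (m : ℕ) : G.W I m ≤ G.W J m := by
  refine Submodule.span_mono ?_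
  rintro _ ⟨i, hi, a, ha, rfl⟩
  exact ⟨i, h hi, a, ha, rfl⟩

lemma cw_mem_of {I : Finset ι} {m : ℕ} {W' : Submodule Ω (MvPolynomial (Fin n) Ω)}
    (hW : G.W I m ≤ W') (δ : Derivation ℤ Ω Ω)
    (h : ∀ i ∈ I, ∀ a : Fin n →₀ ℕ, Finsupp.degree a + G.deg i = m →
      monomial a 1 * cw δ (G.f i) ∈ W') {p : MvPolynomial (Fin n) Ω} (hp : p ∈ G.W I m) :
    cw δ p ∈ W' := by
  induction hp using Submodule.span_induction with
  | mem x hx =>
    obtain ⟨i, hi, a, ha, rfl⟩ := hx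
    rw [cw_mul, cw_monomial_one, zero_mul, zero_add]
    exact h i hi a ha
  | zero => rw [cw_zero]; exact W'.zero_mem
  | add x y _ _ hx hy => rw [cw_add]; exact W'.add_mem hx hy
  | smul c x hx hx2 =>
    rw [cw_smul]
    exact W'.add_mem (W'.smul_mem _ (hW hx)) (W'.smul_mem _ hx2)

lemma cw_mem_W {I : Finset ι} {m : ℕ} (δ : Derivation ℤ Ω Ω)
    (h : ∀ i ∈ I, G.deg i ≤ m → cw δ (G.f i) = 0) {p : MvPolynomial (Fin n) Ω}
    (hp : p ∈ G.W I m) : cw δ p ∈ G.W I m := by
  refine G.cw_mem_of le_rfl δ (fun i hi a ha => ?_) hp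
  rw [h i hi (by omega), mul_zero]
  exact Submodule.zero_mem _

lemma cw_D_eq_zero {i : ι} {a : Fin n →₀ ℕ} (ha : Finsupp.degree a = G.deg i) {I : Finset ι}
    {m : ℕ} (h : i ∉ I ∨ m < G.deg i) : ∀ j ∈ I, G.deg j ≤ m → cw (G.D i a) (G.f j) = 0 := by
  intro j hj hjm
  apply G.cw_ne i a ha
  rintro rfl
  rcases h with h | h
  · exact h hj
  · omega

/-- the forms of degree `d` all of whose multiples of degree `2 d` are in `W` -/
noncomputable def S (I : Finset ι) (d : ℕ) : Submodule Ω (MvPolynomial (Fin n) Ω) where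
  carrier := {u | u ∈ homogeneousSubmodule (Fin n) Ω d ∧
    ∀ b : Fin n →₀ ℕ, Finsupp.degree b = d → u * monomial b 1 ∈ G.W I (2 * d)}
  add_mem' := by
    rintro u v ⟨hu, hu2⟩ ⟨hv, hv2⟩
    exact ⟨Submodule.add_mem _ hu hv, fun b hb => by
      rw [add_mul]; exact Submodule.add_mem _ (hu2 b hb) (hv2 b hb)⟩
  zero_mem' := ⟨Submodule.zero_mem _, fun b _ => by rw [zero_mul]; exact Submodule.zero_mem _⟩
  smul_mem' := by
    rintro c u ⟨hu, hu2⟩
    exact ⟨Submodule.smul_mem _ _ hu, fun b hb => by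
      rw [smul_mul_assoc]; exact Submodule.smul_mem _ _ (hu2 b hb)⟩

lemma mem_S (I : Finset ι) (d : ℕ) (u : MvPolynomial (Fin n) Ω) : u ∈ G.S I d ↔
    u ∈ homogeneousSubmodule (Fin n) Ω d ∧
    ∀ b : Fin n →₀ ℕ, Finsupp.degree b = d → u * monomial b 1 ∈ G.W I (2 * d) := Iff.rfl

lemma S_le (I : Finset ι) (d : ℕ) : G.S I d ≤ homogeneousSubmodule (Fin n) Ω d := fun _ h => h.1

lemma S_mono {I J : Finset ι} (h : I ⊆ J) (d : ℕ) : G.S I d ≤ G.S J d := fun _ hu =>
  ⟨hu.1, fun b hb => G.W_mono h _ (hu.2 b hb)⟩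

lemma mul_mem_of_S {I : Finset ι} {d : ℕ} {u w : MvPolynomial (Fin n) Ω} (hu : u ∈ G.S I d)
    (hw : w ∈ homogeneousSubmodule (Fin n) Ω d) : u * w ∈ G.W I (2 * d) := by
  have h1 := hom_induct (k := d) (G.W I (2 * d)) (LinearMap.mulLeft Ω u) (by
    intro a ha
    rw [LinearMap.mulLeft_apply]
    exact hu.2 a ha) hw
  rwa [LinearMap.mulLeft_apply] at h1

lemma f_mem_S {I : Finset ι} {d : ℕ} {i : ι} (hi : i ∈ I) (hd : G.deg i = d) :
    G.f i ∈ G.S I d := by
  have h0 := G.hom i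
  rw [hd] at h0
  refine (G.mem_S _ _ _).2 ⟨h0, fun b hb => ?_⟩
  have h1 : monomial b (1 : Ω) * G.f i ∈ G.W I (2 * d) :=
    G.mul_mem_W hi (mono_hom hb 1) (by omega)
  have h2 : G.f i * monomial b (1 : Ω) = monomial b (1 : Ω) * G.f i := mul_comm _ _
  rw [h2]
  exact h1

/-- `S` is stable under derivations that kill the forms. -/
lemma cw_mem_S {I : Finset ι} {d : ℕ} (δ : Derivation ℤ Ω Ω)
    (h : ∀ i ∈ I, G.deg i ≤ 2 * d → cw δ (G.f i) = 0) {u : MvPolynomial (Fin n) Ω}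
    (hu : u ∈ G.S I d) : cw δ u ∈ G.S I d := by
  refine ⟨cw_hom δ hu.1, fun b hb => ?_⟩
  have h1 := G.cw_mem_W δ h (hu.2 b hb)
  rw [cw_mul, cw_monomial_one, mul_zero, add_zero] at h1
  exact h1

/-- The tangent argument. -/
lemma tangent {I : Finset ι} {m c : ℕ} {x : ι} (hx : x ∉ I) (hc : c + G.deg x = m)
    {u : MvPolynomial (Fin n) Ω} (hu : u ∈ homogeneousSubmodule (Fin n) Ω c)
    (hux : u * G.f x ∈ G.W I m) {J : Finset ι} (hIJ : I ⊆ J) (hxJ : x ∈ J) (b : Fin n →₀ ℕ)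
    (hb : Finsupp.degree b = G.deg x) : u * monomial b 1 ∈ G.W J m := by
  have h1 := G.cw_mem_W (G.D x b) (G.cw_D_eq_zero hb (Or.inl hx)) hux
  rw [cw_mul, G.cw_self x b hb] at h1
  have h2 : cw (G.D x b) u * G.f x ∈ G.W J m := G.mul_mem_W hxJ (cw_hom _ hu) hc
  have h3 := Submodule.sub_mem _ (G.W_mono hIJ m h1) h2
  rwa [add_sub_cancel_left] at h3

lemma tangent_S {I J : Finset ι} {d : ℕ} {x : ι} (hx : x ∉ I) (hd : G.deg x = d)
    {u : MvPolynomial (Fin n) Ω} (hu : u ∈ homogeneousSubmodule (Fin n) Ω d)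
    (hux : u * G.f x ∈ G.W I (2 * d)) (hIJ : I ⊆ J) (hxJ : x ∈ J) : u ∈ G.S J d :=
  ⟨hu, fun b hb => G.tangent hx (by omega) hu hux hIJ hxJ b (by omega)⟩

/-- If the new form is in `S`, then everything is in `S`. -/
lemma le_of_f_mem_S {I : Finset ι} {d : ℕ} {x : ι} (hx : x ∉ I) (hd : G.deg x = d)
    (h : G.f x ∈ G.S I d) : homogeneousSubmodule (Fin n) Ω d ≤ G.S I d := by
  intro g hg
  have h1 := hom_induct (k := d) (G.S I d) LinearMap.id (by
    intro b hb
    have h2 := G.cw_mem_S (G.D x b) (G.cw_D_eq_zero (hb.trans hd.symm) (Or.inl hx)) h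
    rwa [G.cw_self x b (hb.trans hd.symm)] at h2) hg
  exact h1

end GS

/-- a monomial of degree `2 d` is a product of two of degree `d` -/
lemma split_mono {m k l : ℕ} (s : Fin n →₀ ℕ) (hs : Finsupp.degree s = m) (h : k + l = m) :
    ∃ a b : Fin n →₀ ℕ, a + b = s ∧ Finsupp.degree a = k ∧ Finsupp.degree b = l := by
  classical
  induction k generalizing s m with
  | zero => exact ⟨0, s, zero_add _, by simp, by omega⟩
  | succ k ih =>
    obtain ⟨i, hi⟩ : ∃ i, 0 < s i := by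
      by_contra hne
      push Not at hne
      have h0 : s = 0 := by
        ext i
        have := hne i
        simpa using this
      rw [h0] at hs
      simp at hs
      omega
    have h1 : s - Finsupp.single i 1 + Finsupp.single i 1 = s :=
      tsub_add_cancel_of_le (by rwa [Finsupp.single_le_iff])
    have h2 := congrArg Finsupp.degree h1
    rw [map_add, Finsupp.degree_single, hs] at h2
    obtain ⟨a, b, hab, ha, hb⟩ := ih (m := m - 1) (s - Finsupp.single i 1) (by omega) (by omega)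
    refine ⟨a + Finsupp.single i 1, b, ?_, ?_, hb⟩
    · rw [add_right_comm, hab, h1]
    · rw [map_add, Finsupp.degree_single, ha]

namespace GS

variable {ι : Type*} (G : GS n Ω ι)

/-- If `S` is everything, then `W` is everything. -/
lemma W_full_of_S_full {I : Finset ι} {d : ℕ}
    (h : homogeneousSubmodule (Fin n) Ω d ≤ G.S I d) :
    homogeneousSubmodule (Fin n) Ω (2 * d) ≤ G.W I (2 * d) := by
  intro g hg
  have h1 := hom_induct (k := 2 * d) (G.W I (2 * d)) LinearMap.id (by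
    intro s hs
    obtain ⟨a, b, hab, ha, hb⟩ := split_mono s hs (two_mul d).symm
    have h2 := (h (mono_hom ha (1 : Ω))).2 b hb
    rw [monomial_mul, one_mul, hab] at h2
    exact h2) hg
  exact h1

/-- The square of the new form is not in `W`, unless `W` is everything. -/
lemma W_full_of_sq [CharZero Ω] {I : Finset ι} {d : ℕ} {x : ι} (hx : x ∉ I) (hd : G.deg x = d)
    (h : G.f x * G.f x ∈ G.W I (2 * d)) :
    homogeneousSubmodule (Fin n) Ω (2 * d) ≤ G.W I (2 * d) := by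
  apply G.W_full_of_S_full
  intro g hg
  have key : ∀ b : Fin n →₀ ℕ, Finsupp.degree b = d → monomial b (1 : Ω) ∈ G.S I d := by
    intro b hb
    refine ⟨mono_hom hb 1, fun b' hb' => ?_⟩
    have h1 := G.cw_mem_W (G.D x b) (G.cw_D_eq_zero (hb.trans hd.symm) (Or.inl hx)) h
    rw [cw_mul, G.cw_self x b (hb.trans hd.symm), mul_comm (G.f x), ← two_smul Ω] at h1
    have h2 : monomial b 1 * G.f x ∈ G.W I (2 * d) := by
      have := Submodule.smul_mem _ (2 : Ω)⁻¹ h1
      rwa [smul_smul, inv_mul_cancel₀ (two_ne_zero), one_smul] at this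
    have h3 := G.cw_mem_W (G.D x b') (G.cw_D_eq_zero (hb'.trans hd.symm) (Or.inl hx)) h2
    rwa [cw_mul, cw_monomial_one, zero_mul, zero_add, G.cw_self x b' (hb'.trans hd.symm)] at h3
  exact hom_induct (k := d) (G.S I d) LinearMap.id (fun b hb => key b hb) hg

end GS

end Pool.Agent.N177.FK
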